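import Mathlib

set_option autoImplicit false
set_option linter.unusedSectionVars false

namespace Pool.Agent.Lib.MP_f2a48e_co

open Finset

structure Good (i : ℕ) {J L C : Type} [LinearOrder J] [LinearOrder L] [LinearOrder C] [Fintype L]
    (emb : L → C) (one : L → J → Finset C) (cols : Finset C) : Prop where
  mono : StrictMono emb
  mem : ∀ l r, emb l ∈ one l r
  le : ∀ l r c, c ∈ one l r → emb l ≤ c
  live : ∀ l r l', emb l' ∈ one l r → l' = l
  card : ∀ l r, (one l r).card = i
  sub : ∀ l r, one l r ⊆ cols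
  embc : ∀ l, emb l ∈ cols
  cnt : cols.card + 2 ≤ 2 * Fintype.card L
  av1 : ∀ l r l' r', l < l' → ∀ x1 x2 x3 x4, x1 < x2 → x2 < x3 → x3 < x4 →
    x1 ∈ one l' r' → x2 ∈ one l r → x3 ∈ one l' r' → x4 ∈ one l r → False
  av2 : ∀ l r r', r < r' → ∀ x3 x4, emb l < x3 → x3 < x4 →
    x3 ∈ one l r' → x4 ∈ one l r → False

def Ex (i : ℕ) (J : Type) [LinearOrder J] : Prop :=
  ∃ (L C : Type) (_ : LinearOrder L) (_ : LinearOrder C) (_ : Fintype L)
    (emb : L → C) (one : L → J → Finset C) (cols : Finset C), Good i emb one cols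

theorem Ex.transport {i : ℕ} {J J' : Type} [LinearOrder J] [LinearOrder J'] (e : J' ≃o J)
    (h : Ex i J) : Ex i J' := by
  obtain ⟨L, C, _, _, _, emb, one, cols, g⟩ := h
  refine ⟨L, C, inferInstance, inferInstance, inferInstance, emb, fun l r => one l (e r), cols, ?_⟩
  exact
    { mono := g.mono
      mem := fun l r => g.mem l _
      le := fun l r => g.le l _
      live := fun l r => g.live l _
      card := fun l r => g.card l _
      sub := fun l r => g.sub l _
      embc := g.embc
      cnt := g.cnt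
      av1 := fun l r l' r' => g.av1 l _ l' _
      av2 := fun l r r' h => g.av2 l _ _ (e.strictMono h) }

theorem ex_one (J : Type) [LinearOrder J] : Ex 1 J := by
  refine ⟨Fin 2, Fin 2, inferInstance, inferInstance, inferInstance, id, fun l _ => {l}, univ, ?_⟩
  refine
    { mono := strictMono_id
      mem := by simp
      le := by simp
      live := by simp
      card := by simp
      sub := by simp
      embc := by simp
      cnt := by simp
      av1 := ?_
      av2 := ?_ }
  · intro l r l' r' _ x1 x2 x3 x4 h1 h2 h3 m1 m2 m3 m4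
    simp only [mem_singleton] at m1 m2 m3 m4
    subst m1 m2
    rw [m3] at h2
    exact lt_asymm h1 h2
  · intro l r r' _ x3 x4 h1 h2 m3 m4
    simp only [mem_singleton] at m3 m4
    subst m3
    exact lt_irrefl _ h1

theorem ex_zero (i : ℕ) : Ex i (Fin 0) := by
  refine ⟨Fin 2, Fin 2, inferInstance, inferInstance, inferInstance, id, fun _ r => r.elim0, univ, ?_⟩
  exact
    { mono := strictMono_id
      mem := fun _ r => r.elim0
      le := fun _ r => r.elim0
      live := fun _ r => r.elim0
      card := fun _ r => r.elim0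
      sub := fun _ r => r.elim0
      embc := by simp
      cnt := by simp
      av1 := fun _ r => r.elim0
      av2 := fun _ r => r.elim0 }

section step

variable {i : ℕ} {J LB CB LT CT : Type} [LinearOrder J] [LinearOrder LB] [LinearOrder CB]
  [LinearOrder LT] [LinearOrder CT] [Fintype LB] [Fintype LT]

def loc (eT : LT → CT) (t : LT) (x : CB) : CT ×ₗ WithTop CB := toLex (eT t, (x : WithTop CB))

def glo (CB : Type) (c : CT) : CT ×ₗ WithTop CB := toLex (c, ⊤)

def one' (eB : LB → CB) (oB : LB → J → Finset CB) (eT : LT → CT) (oT : LT → LB → Finset CT)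
    (p : LT ×ₗ LB) (r : WithTop J) : Finset (CT ×ₗ WithTop CB) :=
  WithTop.recTopCoe
    (insert (loc eT (ofLex p).1 (eB (ofLex p).2)) ((oT (ofLex p).1 (ofLex p).2).image (glo CB)))
    (fun r => (oB (ofLex p).2 r).image (loc eT (ofLex p).1)) r

theorem loc_lt_loc {eT : LT → CT} (h : StrictMono eT) {t t' : LT} {x x' : CB} :
    loc eT t x < loc eT t' x' ↔ t < t' ∨ (t = t' ∧ x < x') := by
  simp [loc, Prod.Lex.toLex_lt_toLex, h.lt_iff_lt, h.injective.eq_iff]

theorem loc_inj {eT : LT → CT} (h : StrictMono eT) {t t' : LT} {x x' : CB} :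
    loc eT t x = loc eT t' x' ↔ t = t' ∧ x = x' := by
  simp [loc, h.injective.eq_iff]

theorem loc_lt_glo {eT : LT → CT} {t : LT} {x : CB} {c : CT} :
    loc eT t x < glo CB c ↔ eT t ≤ c := by
  simp [loc, glo, Prod.Lex.toLex_lt_toLex, le_iff_lt_or_eq]

theorem glo_lt_loc {eT : LT → CT} {t : LT} {x : CB} {c : CT} :
    glo CB c < loc eT t x ↔ c < eT t := by
  simp [loc, glo, Prod.Lex.toLex_lt_toLex]

theorem glo_lt_glo {c c' : CT} : glo CB c < glo CB c' ↔ c < c' := by
  simp [glo, Prod.Lex.toLex_lt_toLex]

theorem glo_inj {c c' : CT} : glo CB c = glo CB c' ↔ c = c' := by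
  simp [glo]

theorem loc_ne_glo {eT : LT → CT} {t : LT} {x : CB} {c : CT} : loc eT t x ≠ glo CB c := by
  simp [loc, glo]

theorem step {eB : LB → CB} {oB : LB → J → Finset CB} {cB : Finset CB}
    {eT : LT → CT} {oT : LT → LB → Finset CT} {cT : Finset CT}
    (B : Good (i + 1) eB oB cB) (T : Good i eT oT cT) :
    Good (i + 1) (fun p : LT ×ₗ LB => loc eT (ofLex p).1 (eB (ofLex p).2))
      (one' eB oB eT oT)
      (((univ : Finset LT) ×ˢ cB).image (fun q => loc eT q.1 q.2) ∪ cT.image (glo CB)) := by
  have memT : ∀ (t : LT) (l : LB) (x : CT ×ₗ WithTop CB), x ∈ one' eB oB eT oT (toLex (t, l)) ⊤ ↔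
      x = loc eT t (eB l) ∨ ∃ c ∈ oT t l, glo CB c = x := by
    intro t l x; simp [one']
  have memB : ∀ (t : LT) (l : LB) (r : J) (x : CT ×ₗ WithTop CB),
      x ∈ one' eB oB eT oT (toLex (t, l)) (r : WithTop J) ↔ ∃ y ∈ oB l r, loc eT t y = x := by
    intro t l r x; simp [one']
  have hle : ∀ (t : LT) (l : LB) (r : WithTop J) (x : CT ×ₗ WithTop CB),
      x ∈ one' eB oB eT oT (toLex (t, l)) r → loc eT t (eB l) ≤ x := by
    intro t l r x hx
    induction r using WithTop.recTopCoe with
    | top =>
      rcases (memT t l x).1 hx with rfl | ⟨c, hc, rfl⟩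
      · exact le_rfl
      · exact (loc_lt_glo.2 (T.le _ _ _ hc)).le
    | coe r =>
      obtain ⟨y, hy, rfl⟩ := (memB t l r x).1 hx
      rcases (B.le _ _ _ hy).lt_or_eq with h | h
      · exact ((loc_lt_loc T.mono).2 (Or.inr ⟨rfl, h⟩)).le
      · rw [h]
  have hmono : ∀ (t t' : LT) (l l' : LB), (t < t' ∨ (t = t' ∧ l < l')) →
      loc eT t (eB l) < loc eT t' (eB l') := by
    intro t t' l l' h
    rcases h with h | ⟨h, h'⟩
    · exact (loc_lt_loc T.mono).2 (Or.inl h)
    · exact (loc_lt_loc T.mono).2 (Or.inr ⟨h, B.mono h'⟩)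
  refine
    { mono := ?_
      mem := ?_
      le := ?_
      live := ?_
      card := ?_
      sub := ?_
      embc := ?_
      cnt := ?_
      av1 := ?_
      av2 := ?_ }
  · rintro ⟨t, l⟩ ⟨t', l'⟩ h
    exact hmono t t' l l' (Prod.Lex.toLex_lt_toLex.1 h)
  · rintro ⟨t, l⟩ r
    induction r using WithTop.recTopCoe with
    | top => exact (memT t l _).2 (Or.inl rfl)
    | coe r => exact (memB t l r _).2 ⟨_, B.mem l r, rfl⟩
  · rintro ⟨t, l⟩ r x hx
    exact hle t l r x hx
  · rintro ⟨t, l⟩ r ⟨t', l'⟩ hx
    induction r using WithTop.recTopCoe with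
    | top =>
      rcases (memT t l _).1 hx with h | ⟨c, hc, h⟩
      · obtain ⟨h1, h2⟩ := (loc_inj T.mono).1 h
        have h1' : t' = t := h1
        have h2' : l' = l := B.mono.injective h2
        rw [h1', h2']
      · exact absurd h.symm loc_ne_glo
    | coe r =>
      obtain ⟨y, hy, h⟩ := (memB t l r _).1 hx
      obtain ⟨h1, h2⟩ := (loc_inj T.mono).1 h
      have h1' : t = t' := h1
      have h2' : y = eB l' := h2
      rw [h2'] at hy
      rw [h1', B.live _ _ _ hy]
  · rintro ⟨t, l⟩ r
    induction r using WithTop.recTopCoe with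
    | top =>
      change (insert (loc eT t (eB l)) ((oT t l).image (glo CB))).card = i + 1
      rw [card_insert_of_notMem, card_image_of_injective _ (fun a b h => glo_inj.1 h), T.card]
      simp only [mem_image, not_exists, not_and]
      intro c _ h
      exact loc_ne_glo h.symm
    | coe r =>
      change ((oB l r).image (loc eT t)).card = i + 1
      rw [card_image_of_injective _ (fun a b h => ((loc_inj T.mono).1 h).2), B.card]
  · rintro ⟨t, l⟩ r x hx
    induction r using WithTop.recTopCoe with
    | top =>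
      rcases (memT t l _).1 hx with rfl | ⟨c, hc, rfl⟩
      · exact mem_union_left _ (mem_image.2 ⟨(t, eB l), by simp [B.embc], rfl⟩)
      · exact mem_union_right _ (mem_image.2 ⟨c, T.sub _ _ hc, rfl⟩)
    | coe r =>
      obtain ⟨y, hy, rfl⟩ := (memB t l r _).1 hx
      exact mem_union_left _ (mem_image.2 ⟨(t, y), by simp [B.sub _ _ hy], rfl⟩)
  · rintro ⟨t, l⟩
    exact mem_union_left _ (mem_image.2 ⟨(t, eB l), by simp [B.embc], rfl⟩)
  · have h1 : (((univ : Finset LT) ×ˢ cB).image (fun q => loc eT q.1 q.2)).card ≤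
        Fintype.card LT * cB.card := by
      refine card_image_le.trans ?_
      simp
    have h2 : (cT.image (glo CB)).card ≤ cT.card := card_image_le
    have h3 := card_union_le (((univ : Finset LT) ×ˢ cB).image (fun q => loc eT q.1 q.2))
      (cT.image (glo CB))
    have h4 : Fintype.card (LT ×ₗ LB) = Fintype.card LT * Fintype.card LB := by
      simp [Lex]
    have h5 := B.cnt
    have h6 := T.cnt
    rw [h4]
    have h7 : Fintype.card LT * (cB.card + 2) ≤ Fintype.card LT * (2 * Fintype.card LB) :=
      Nat.mul_le_mul_left _ h5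
    nlinarith
  · rintro ⟨t, l⟩ r ⟨t', l'⟩ r' hlt x1 x2 x3 x4 h12 h23 h34 m1 m2 m3 m4
    have hlt' : t < t' ∨ (t = t' ∧ l < l') := Prod.Lex.toLex_lt_toLex.1 hlt
    have hab := hmono t t' l l' hlt'
    have hb1 := hle t' l' r' x1 m1
    induction r using WithTop.recTopCoe with
    | top =>
      have e2 : ∃ c ∈ oT t l, glo CB c = x2 := by
        rcases (memT t l _).1 m2 with h | h
        · exact absurd (hab.trans_le (hb1.trans h12.le)) (by rw [h]; exact lt_irrefl _)
        · exact h
      obtain ⟨c2, hc2, rfl⟩ := e2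
      induction r' using WithTop.recTopCoe with
      | top =>
        have e3 : ∃ c ∈ oT t' l', glo CB c = x3 := by
          rcases (memT t' l' _).1 m3 with h | h
          · exact absurd (hb1.trans_lt (h12.trans h23)) (by rw [h]; exact lt_irrefl _)
          · exact h
        have e4 : ∃ c ∈ oT t l, glo CB c = x4 := by
          rcases (memT t l _).1 m4 with h | h
          · exact absurd (hab.trans_le (hb1.trans (h12.trans (h23.trans h34)).le))
              (by rw [h]; exact lt_irrefl _)
          · exact h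
        obtain ⟨c3, hc3, rfl⟩ := e3
        obtain ⟨c4, hc4, rfl⟩ := e4
        have k23 := glo_lt_glo.1 h23
        have k34 := glo_lt_glo.1 h34
        have k2 : eT t' ≤ c2 := loc_lt_glo.1 (hb1.trans_lt h12)
        rcases hlt' with h | ⟨h, h'⟩
        · have hne : eT t' ≠ c2 := by
            intro he
            rw [← he] at hc2
            exact h.ne' (T.live _ _ _ hc2)
          exact T.av1 t l t' l' h (eT t') c2 c3 c4 (lt_of_le_of_ne k2 hne) k23 k34
            (T.mem _ _) hc2 hc3 hc4
        · subst h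
          exact T.av2 t l l' h' c3 c4 (k2.trans_lt k23) k34 hc3 hc4
      | coe r' =>
        obtain ⟨y1, hy1, rfl⟩ := (memB t' l' r' _).1 m1
        obtain ⟨y3, hy3, rfl⟩ := (memB t' l' r' _).1 m3
        exact absurd (glo_lt_loc.1 h23) (not_lt.2 (loc_lt_glo.1 h12))
    | coe r =>
      obtain ⟨y2, hy2, rfl⟩ := (memB t l r _).1 m2
      obtain ⟨y4, hy4, rfl⟩ := (memB t l r _).1 m4
      induction r' using WithTop.recTopCoe with
      | top =>
        rcases (memT t' l' _).1 m3 with h | ⟨c, hc, rfl⟩
        · exact absurd (hb1.trans_lt (h12.trans h23)) (by rw [h]; exact lt_irrefl _)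
        · exact absurd (glo_lt_loc.1 h34) (not_lt.2 (loc_lt_glo.1 h23))
      | coe r' =>
        obtain ⟨y1, hy1, rfl⟩ := (memB t' l' r' _).1 m1
        obtain ⟨y3, hy3, rfl⟩ := (memB t' l' r' _).1 m3
        have k12 := (loc_lt_loc T.mono).1 h12
        have k23 := (loc_lt_loc T.mono).1 h23
        have k34 := (loc_lt_loc T.mono).1 h34
        rcases hlt' with h | ⟨h, h'⟩
        · rcases k12 with k | ⟨k, _⟩
          · exact lt_asymm h k
          · exact h.ne' k
        · subst h
          simp only [lt_self_iff_false, true_and, false_or] at k12 k23 k34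
          exact B.av1 l r l' r' h' y1 y2 y3 y4 k12 k23 k34 hy1 hy2 hy3 hy4
  · rintro ⟨t, l⟩ r r' hlt x3 x4 h3 h34 m3 m4
    induction r using WithTop.recTopCoe with
    | top => exact absurd hlt (not_top_lt)
    | coe r =>
      obtain ⟨y4, hy4, rfl⟩ := (memB t l r _).1 m4
      induction r' using WithTop.recTopCoe with
      | top =>
        rcases (memT t l _).1 m3 with h | ⟨c, hc, rfl⟩
        · exact absurd h3 (by rw [h]; exact lt_irrefl _)
        · exact absurd (glo_lt_loc.1 h34) (not_lt.2 (T.le _ _ _ hc))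
      | coe r' =>
        obtain ⟨y3, hy3, rfl⟩ := (memB t l r' _).1 m3
        have k3 := (loc_lt_loc T.mono).1 h3
        have k34 := (loc_lt_loc T.mono).1 h34
        simp only [lt_self_iff_false, true_and, false_or] at k34
        have k3' : eB l < y3 := by
          rcases k3 with k | ⟨_, k⟩
          · exact absurd k (lt_irrefl _)
          · exact k
        exact B.av2 l r r' (WithTop.coe_lt_coe.1 hlt) y3 y4 k3' k34 hy3 hy4

end step

theorem ex_all (i : ℕ) : ∀ j : ℕ, Ex (i + 1) (Fin j) := by
  induction i with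
  | zero => intro j; exact ex_one _
  | succ i ih =>
    intro j
    induction j with
    | zero => exact ex_zero _
    | succ j ihj =>
      obtain ⟨LB, CB, _, _, _, eB, oB, cB, B⟩ := ihj
      have hT : Ex (i + 1) LB :=
        (ih (Fintype.card LB)).transport (monoEquivOfFin LB rfl).symm
      obtain ⟨LT, CT, _, _, _, eT, oT, cT, T⟩ := hT
      have h : Ex (i + 1 + 1) (WithTop (Fin j)) :=
        ⟨_, _, inferInstance, inferInstance, inferInstance, _, _, _, step B T⟩
      refine h.transport (monoEquivOfFin (WithTop (Fin j)) ?_)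
      change Fintype.card (Option (Fin j)) = j + 1
      convert (Fintype.card_option (α := Fin j)).trans (by rw [Fintype.card_fin])

end Pool.Agent.Lib.MP_f2a48e_co
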