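import Mathlib

set_option autoImplicit false

namespace Pool.Agent.Lib.MP_f2a48e_co

/-- `A` contains `P`: some choice of rows and columns of `A`, order kept, has a 1 wherever `P` has. -/
def Contains {a b r s : ℕ} (A : Matrix (Fin a) (Fin b) Bool) (P : Matrix (Fin r) (Fin s) Bool) :
    Prop :=
  ∃ (f : Fin r → Fin a) (g : Fin s → Fin b), StrictMono f ∧ StrictMono g ∧
    ∀ i j, P i j = true → A (f i) (g j) = true

/-- The number of 1-entries. -/
def ones {a b : ℕ} (A : Matrix (Fin a) (Fin b) Bool) : ℕ :=
  (Finset.univ.filter fun p : Fin a × Fin b => A p.1 p.2 = true).card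

/-- The largest number of 1-entries of an `n × n` matrix avoiding `P`. -/
noncomputable def ex {r s : ℕ} (n : ℕ) (P : Matrix (Fin r) (Fin s) Bool) : ℕ :=
  sSup {k | ∃ A : Matrix (Fin n) (Fin n) Bool, ¬ Contains A P ∧ ones A = k}

/-- The largest number of 1-entries of a `P`-avoiding matrix obtained from `A` by turning
some 1-entries into 0. -/
noncomputable def LSM {a b r s : ℕ} (A : Matrix (Fin a) (Fin b) Bool)
    (P : Matrix (Fin r) (Fin s) Bool) : ℕ :=
  sSup {k | ∃ B : Matrix (Fin a) (Fin b) Bool,
    (∀ i j, B i j = true → A i j = true) ∧ ¬ Contains B P ∧ ones B = k}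

/-- The minimum of `LSM A P` over all matrices `A`, of any dimensions, with exactly `m` ones. -/
noncomputable def sm {r s : ℕ} (m : ℕ) (P : Matrix (Fin r) (Fin s) Bool) : ℕ :=
  sInf {k | ∃ (a b : ℕ) (A : Matrix (Fin a) (Fin b) Bool), ones A = m ∧ LSM A P = k}

/-- The pattern with rows `0101` and `1010`. -/
def P₀ : Matrix (Fin 2) (Fin 4) Bool :=
  !![false, true, false, true; true, false, true, false]

end Pool.Agent.Lib.MP_f2a48e_co
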