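import Pool.Agent.Lib.MP_f2a48e_co.Proof

/-! General tools: the extremal functions for an arbitrary pattern, row reversal, thinning. -/

set_option autoImplicit false

namespace Pool.Agent.Lib.MP_f2a48e_co.Cl

open Finset

variable {a b r s : ℕ}

/-- the set of 1-entries -/
def pts (A : Matrix (Fin a) (Fin b) Bool) : Finset (Fin a × Fin b) :=
  univ.filter fun p => A p.1 p.2 = true

theorem mem_pts {A : Matrix (Fin a) (Fin b) Bool} {p : Fin a × Fin b} :
    p ∈ pts A ↔ A p.1 p.2 = true := by simp [pts]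

theorem ones_eq (A : Matrix (Fin a) (Fin b) Bool) : ones A = (pts A).card := rfl

/-- the matrix of a set of positions -/
def mat (S : Finset (Fin a × Fin b)) : Matrix (Fin a) (Fin b) Bool :=
  fun x y => decide ((x, y) ∈ S)

theorem mat_iff {S : Finset (Fin a × Fin b)} {x : Fin a} {y : Fin b} :
    mat S x y = true ↔ (x, y) ∈ S := by simp [mat]

theorem ones_mat (S : Finset (Fin a × Fin b)) : ones (mat S) = S.card := by
  rw [ones_eq]; congr 1; ext p; rw [mem_pts, mat_iff]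

theorem le_ex {n : ℕ} {P : Matrix (Fin r) (Fin s) Bool} (A : Matrix (Fin n) (Fin n) Bool)
    (h : ¬ Contains A P) : ones A ≤ ex n P := by
  refine le_csSup ⟨n * n, ?_⟩ ⟨A, h, rfl⟩
  rintro k ⟨B, _, rfl⟩
  exact ones_le B

theorem ex_le {n : ℕ} {P : Matrix (Fin r) (Fin s) Bool} (K : ℕ)
    (h : ∀ A : Matrix (Fin n) (Fin n) Bool, ¬ Contains A P → ones A ≤ K) : ex n P ≤ K := by
  refine csSup_le' ?_
  rintro k ⟨B, h1, rfl⟩
  exact h B h1

theorem ex_attained {n : ℕ} {P : Matrix (Fin r) (Fin s) Bool} (h : 0 < ex n P) :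
    ∃ A : Matrix (Fin n) (Fin n) Bool, ¬ Contains A P ∧ ones A = ex n P := by
  have hne : {k | ∃ A : Matrix (Fin n) (Fin n) Bool, ¬ Contains A P ∧ ones A = k}.Nonempty := by
    by_contra hh
    rw [ex, Set.not_nonempty_iff_eq_empty.1 hh] at h
    simp at h
  refine Nat.sSup_mem hne ⟨n * n, ?_⟩
  rintro k ⟨B, _, rfl⟩
  exact ones_le B

theorem le_LSM {P : Matrix (Fin r) (Fin s) Bool} (A : Matrix (Fin a) (Fin b) Bool)
    (S : Finset (Fin a × Fin b)) (hs : S ⊆ pts A) (h : ¬ Contains (mat S) P) :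
    S.card ≤ LSM A P := by
  rw [← ones_mat]
  refine le_csSup ⟨a * b, ?_⟩ ⟨mat S, fun i j hij => mem_pts.1 (hs (mat_iff.1 hij)), h, rfl⟩
  rintro k ⟨B, _, _, rfl⟩
  exact ones_le B

theorem LSM_le {P : Matrix (Fin r) (Fin s) Bool} (A : Matrix (Fin a) (Fin b) Bool) (K : ℕ)
    (h : ∀ B : Matrix (Fin a) (Fin b) Bool, (∀ i j, B i j = true → A i j = true) →
      ¬ Contains B P → ones B ≤ K) : LSM A P ≤ K := by
  refine csSup_le' ?_
  rintro k ⟨B, h1, h2, rfl⟩
  exact h B h1 h2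

theorem sm_le {m : ℕ} (P : Matrix (Fin r) (Fin s) Bool) (A : Matrix (Fin a) (Fin b) Bool)
    (h : ones A = m) : sm m P ≤ LSM A P := Nat.sInf_le ⟨_, _, A, h, rfl⟩

theorem sm_attained (m : ℕ) (P : Matrix (Fin r) (Fin s) Bool) :
    ∃ (a b : ℕ) (A : Matrix (Fin a) (Fin b) Bool), ones A = m ∧ LSM A P = sm m P :=
  Nat.sInf_mem (s := {k | ∃ (a b : ℕ) (A : Matrix (Fin a) (Fin b) Bool), ones A = m ∧ LSM A P = k})
    ⟨_, _, _, cyc 1 m, ones_cyc 1 m one_pos, rfl⟩

theorem ex_mono {r' s' n : ℕ} {P : Matrix (Fin r) (Fin s) Bool} {Q : Matrix (Fin r') (Fin s') Bool}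
    (h : ∀ A : Matrix (Fin n) (Fin n) Bool, Contains A Q → Contains A P) : ex n P ≤ ex n Q :=
  ex_le _ fun A hA => le_ex A fun hQ => hA (h A hQ)

theorem LSM_mono {r' s' : ℕ} {P : Matrix (Fin r) (Fin s) Bool} {Q : Matrix (Fin r') (Fin s') Bool}
    (A : Matrix (Fin a) (Fin b) Bool)
    (h : ∀ B : Matrix (Fin a) (Fin b) Bool, Contains B Q → Contains B P) : LSM A P ≤ LSM A Q := by
  refine LSM_le A _ fun B hB hP => ?_
  refine le_csSup ⟨a * b, ?_⟩ ⟨B, hB, fun hQ => hP (h B hQ), rfl⟩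
  rintro k ⟨B, _, _, rfl⟩
  exact ones_le B

/-! ### Reversing the rows -/

/-- the matrix with the order of the rows reversed -/
def flip (A : Matrix (Fin a) (Fin b) Bool) : Matrix (Fin a) (Fin b) Bool := fun i j => A i.rev j

theorem flip_flip (A : Matrix (Fin a) (Fin b) Bool) : flip (flip A) = A := by
  ext i j; simp [flip]

theorem contains_flip {A : Matrix (Fin a) (Fin b) Bool} {P : Matrix (Fin r) (Fin s) Bool}
    (h : Contains A P) : Contains (flip A) (flip P) := by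
  obtain ⟨f, g, hf, hg, h⟩ := h
  refine ⟨fun i => (f i.rev).rev, g, fun i j hij => ?_, hg, fun i j hij => ?_⟩
  · exact Fin.rev_lt_rev.2 (hf (Fin.rev_lt_rev.2 hij))
  · simpa [flip] using h _ _ hij

theorem ones_flip (A : Matrix (Fin a) (Fin b) Bool) : ones (flip A) = ones A := by
  rw [ones_eq, ones_eq]
  refine card_bij' (fun p _ => (p.1.rev, p.2)) (fun p _ => (p.1.rev, p.2)) ?_ ?_ ?_ ?_
  · intro p hp; simpa [mem_pts, flip] using hp
  · intro p hp; simpa [mem_pts, flip] using hp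
  · intro p _; simp
  · intro p _; simp

theorem ex_flip_le (n : ℕ) (P : Matrix (Fin r) (Fin s) Bool) : ex n (flip P) ≤ ex n P :=
  ex_le _ fun A hA => by
    rw [← ones_flip]
    exact le_ex _ fun h => hA (flip_flip A ▸ contains_flip h)

theorem ex_flip (n : ℕ) (P : Matrix (Fin r) (Fin s) Bool) : ex n (flip P) = ex n P :=
  le_antisymm (ex_flip_le n P) (by simpa only [flip_flip] using ex_flip_le n (flip P))

theorem LSM_flip_le (A : Matrix (Fin a) (Fin b) Bool) (P : Matrix (Fin r) (Fin s) Bool) :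
    LSM (flip A) (flip P) ≤ LSM A P :=
  LSM_le _ _ fun B hB hP => by
    rw [← ones_flip]
    refine le_csSup ⟨a * b, ?_⟩ ⟨flip B, fun i j hij => ?_,
      fun h => hP (flip_flip B ▸ contains_flip h), rfl⟩
    · rintro k ⟨B, _, _, rfl⟩
      exact ones_le B
    · simpa [flip] using hB _ _ hij

theorem sm_flip_le (m : ℕ) (P : Matrix (Fin r) (Fin s) Bool) : sm m (flip P) ≤ sm m P := by
  obtain ⟨a, b, A, h1, h2⟩ := sm_attained m P
  exact (sm_le _ (flip A) ((ones_flip A).trans h1)).trans (h2 ▸ LSM_flip_le A P)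

theorem sm_flip (m : ℕ) (P : Matrix (Fin r) (Fin s) Bool) : sm m (flip P) = sm m P :=
  le_antisymm (sm_flip_le m P) (by simpa only [flip_flip] using sm_flip_le m (flip P))

/-! ### Two-row patterns, increasing selections, thinning -/

theorem contains_two {A : Matrix (Fin a) (Fin b) Bool} {P : Matrix (Fin 2) (Fin s) Bool}
    {x y : Fin a} (hxy : x < y) (g : Fin s → Fin b) (hg : StrictMono g)
    (h0 : ∀ j, P 0 j = true → A x (g j) = true) (h1 : ∀ j, P 1 j = true → A y (g j) = true) :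
    Contains A P := by
  refine ⟨![x, y], g, ?_, hg, ?_⟩
  · refine Fin.strictMono_iff_lt_succ.2 fun i => ?_
    fin_cases i
    simpa using hxy
  · intro i j h
    fin_cases i
    · exact h0 j h
    · exact h1 j h

theorem exists_emb {α : Type} [LinearOrder α] (T : Finset α) {k : ℕ} (h : k ≤ T.card) :
    ∃ e : Fin k → α, StrictMono e ∧ ∀ p, e p ∈ T :=
  ⟨T.orderEmbOfCardLe h, (T.orderEmbOfCardLe h).strictMono, T.orderEmbOfCardLe_mem h⟩

/-- the 1-entries of row `x` to the left of column `c` -/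
def lf (A : Matrix (Fin a) (Fin b) Bool) (x : Fin a) (c : Fin b) : Finset (Fin b) :=
  univ.filter fun z => A x z = true ∧ z < c

/-- the 1-entries of row `x` to the right of column `c` -/
def rt (A : Matrix (Fin a) (Fin b) Bool) (x : Fin a) (c : Fin b) : Finset (Fin b) :=
  univ.filter fun z => A x z = true ∧ c < z

theorem mem_lf {A : Matrix (Fin a) (Fin b) Bool} {x : Fin a} {c z : Fin b} :
    z ∈ lf A x c ↔ A x z = true ∧ z < c := by simp [lf]

theorem mem_rt {A : Matrix (Fin a) (Fin b) Bool} {x : Fin a} {c z : Fin b} :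
    z ∈ rt A x c ↔ A x z = true ∧ c < z := by simp [rt]

theorem lf_mono (A : Matrix (Fin a) (Fin b) Bool) (x : Fin a) {c c' : Fin b} (h : c ≤ c') :
    (lf A x c).card ≤ (lf A x c').card :=
  card_le_card fun _ hz => mem_lf.2 ⟨(mem_lf.1 hz).1, (mem_lf.1 hz).2.trans_le h⟩

theorem rt_anti (A : Matrix (Fin a) (Fin b) Bool) (x : Fin a) {c c' : Fin b} (h : c ≤ c') :
    (rt A x c').card ≤ (rt A x c).card :=
  card_le_card fun _ hz => mem_rt.2 ⟨(mem_rt.1 hz).1, h.trans_lt (mem_rt.1 hz).2⟩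

theorem lf_lt (A : Matrix (Fin a) (Fin b) Bool) (x : Fin a) {c c' : Fin b} (hc : A x c = true)
    (h : c < c') : (lf A x c).card < (lf A x c').card :=
  card_lt_card ⟨fun _ hz => mem_lf.2 ⟨(mem_lf.1 hz).1, (mem_lf.1 hz).2.trans h⟩,
    fun hh => lt_irrefl _ (mem_lf.1 (hh (mem_lf.2 ⟨hc, h⟩))).2⟩

theorem rt_lt (A : Matrix (Fin a) (Fin b) Bool) (x : Fin a) {c c' : Fin b} (hc : A x c' = true)
    (h : c < c') : (rt A x c').card < (rt A x c).card :=
  card_lt_card ⟨fun _ hz => mem_rt.2 ⟨(mem_rt.1 hz).1, h.trans (mem_rt.1 hz).2⟩,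
    fun hh => lt_irrefl _ (mem_rt.1 (hh (mem_rt.2 ⟨hc, h⟩))).2⟩

theorem few (A : Matrix (Fin a) (Fin b) Bool) (k : ℕ) (φ : Fin a → Fin b → ℕ)
    (hφ : ∀ x c c', A x c = true → A x c' = true → c < c' → φ x c ≠ φ x c') :
    ((pts A).filter fun p => φ p.1 p.2 < k).card ≤ a * k := by
  have : ((pts A).filter fun p => φ p.1 p.2 < k).card ≤ ((univ : Finset (Fin a)) ×ˢ range k).card := by
    refine card_le_card_of_injOn (fun p => (p.1, φ p.1 p.2)) ?_ ?_
    · intro p hp
      simp only [coe_filter, Set.mem_ofPred_eq] at hp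
      simpa using hp.2
    · rintro ⟨x, c⟩ hp ⟨x', c'⟩ hp' h
      simp only [coe_filter, Set.mem_ofPred_eq, mem_pts] at hp hp'
      simp only [Prod.mk.injEq] at h
      obtain ⟨rfl, h2⟩ := h
      rcases lt_trichotomy c c' with hh | hh | hh
      · exact absurd h2 (hφ _ _ _ hp.1 hp'.1 hh)
      · rw [hh]
      · exact absurd h2.symm (hφ _ _ _ hp'.1 hp.1 hh)
  simpa using this

/-- the 1-entries with at least `k` further ones on both sides in their row -/
def deep (A : Matrix (Fin a) (Fin b) Bool) (k : ℕ) : Finset (Fin a × Fin b) :=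
  (pts A).filter fun p => k ≤ (lf A p.1 p.2).card ∧ k ≤ (rt A p.1 p.2).card

theorem mem_deep {A : Matrix (Fin a) (Fin b) Bool} {k : ℕ} {p : Fin a × Fin b} :
    p ∈ deep A k ↔ A p.1 p.2 = true ∧ k ≤ (lf A p.1 p.2).card ∧ k ≤ (rt A p.1 p.2).card := by
  simp [deep, mem_pts]

theorem ones_le_deep (A : Matrix (Fin a) (Fin b) Bool) (k : ℕ) :
    ones A ≤ (deep A k).card + 2 * (a * k) := by
  have h1 := few A k (fun x c => (lf A x c).card) fun x c c' h _ hc => (lf_lt A x h hc).ne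
  have h2 := few A k (fun x c => (rt A x c).card) fun x c c' _ h hc => (rt_lt A x h hc).ne'
  have h3 : pts A ⊆ deep A k ∪ ((pts A).filter (fun p => (lf A p.1 p.2).card < k) ∪
      (pts A).filter fun p => (rt A p.1 p.2).card < k) := by
    intro p hp
    simp only [mem_union, mem_filter, deep, hp, true_and]
    omega
  have h4 := (card_le_card h3).trans ((card_union_le _ _).trans
    (Nat.add_le_add_left (card_union_le _ _) _))
  rw [ones_eq]
  omega

/-- `ex` is superlinear -/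
def SupLin (P : Matrix (Fin r) (Fin s) Bool) : Prop :=
  ∀ K : ℕ, ∃ n0, ∀ n, n0 ≤ n → K * n ≤ ex n P

/-- `sm` is of larger order than the square root -/
def Big (P : Matrix (Fin r) (Fin s) Bool) : Prop :=
  ∀ K : ℕ, ∃ m0, ∀ m, m0 ≤ m → K * K * m ≤ sm m P * sm m P

theorem supLin_of {P : Matrix (Fin r) (Fin s) Bool}
    (h : Filter.Tendsto (fun n : ℕ => (ex n P : ℝ) / n) Filter.atTop Filter.atTop) : SupLin P := by
  intro K
  obtain ⟨n0, h0⟩ := Filter.eventually_atTop.1 (Filter.tendsto_atTop.1 h (K : ℝ))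
  refine ⟨n0 + 1, fun n hn => ?_⟩
  have h1 := h0 n (by omega)
  rw [le_div_iff₀ (by exact_mod_cast (by omega : 0 < n))] at h1
  exact_mod_cast h1

theorem not_big {P : Matrix (Fin r) (Fin s) Bool} {c : ℝ}
    (h : ∀ᶠ m : ℕ in Filter.atTop, (sm m P : ℝ) ≤ c * √(m : ℝ)) : ¬ Big P := by
  intro hb
  obtain ⟨K, hK⟩ := exists_nat_gt |c|
  obtain ⟨m0, h0⟩ := hb K
  obtain ⟨m1, h1⟩ := Filter.eventually_atTop.1 h
  have h2 : ((K : ℝ) * K * (m0 + m1 + 1 : ℕ)) ≤ sm (m0 + m1 + 1) P * sm (m0 + m1 + 1) P := by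
    exact_mod_cast h0 (m0 + m1 + 1) (by omega)
  have h3 := h1 (m0 + m1 + 1) (by omega)
  have h4 : (0 : ℝ) < (m0 + m1 + 1 : ℕ) := by positivity
  have h5 := Real.mul_self_sqrt h4.le
  have h6 := Real.sqrt_pos.2 h4
  generalize √((m0 + m1 + 1 : ℕ) : ℝ) = t at h3 h5 h6
  have h7 : (0 : ℝ) ≤ sm (m0 + m1 + 1) P := by positivity
  generalize (sm (m0 + m1 + 1) P : ℝ) = u at h2 h3 h7
  rw [← h5] at h2
  have h8 : u < K * t := h3.trans_lt (mul_lt_mul_of_pos_right ((le_abs_self c).trans_lt hK) h6)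
  nlinarith

end Pool.Agent.Lib.MP_f2a48e_co.Cl
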