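import Pool.Agent.Lib.MP_f2a48e_co.K1

/-! The family of solutions, and linear bounds for patterns with at most three runs. -/

set_option autoImplicit false

namespace Pool.Agent.Lib.MP_f2a48e_co.Cl

open Finset

variable {a b s : ℕ}

/-- row `r` is `1^i 0 1 0^j`, the other row is its complement -/
def Form (r : Fin 2) (P : Matrix (Fin 2) (Fin s) Bool) : Prop :=
  ∃ i : ℕ, 1 ≤ i ∧ i + 3 ≤ s ∧ ∀ x j, P x j = true ↔ (x = r ↔ (j.1 < i ∨ j.1 = i + 1))

theorem form_flip {P : Matrix (Fin 2) (Fin s) Bool} {r : Fin 2} (h : Form r P) :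
    Form r.rev (flip P) := by
  obtain ⟨i, h1, h2, h⟩ := h
  refine ⟨i, h1, h2, fun x j => ?_⟩
  rw [flip, h, Fin.rev_eq_iff]

theorem contains_P0 {P : Matrix (Fin 2) (Fin s) Bool} (h : Form 1 P)
    (A : Matrix (Fin a) (Fin b) Bool) (hA : Contains A P) : Contains A P₀ := by
  obtain ⟨i, h1, h2, h⟩ := h
  obtain ⟨f, g, hf, hg, hA⟩ := hA
  rw [contains_iff]
  refine ⟨f 0, f 1, g ⟨i - 1, by omega⟩, g ⟨i, by omega⟩, g ⟨i + 1, by omega⟩, g ⟨i + 2, by omega⟩,
    hf (by decide), hg ?_, hg ?_, hg ?_, hA _ _ ?_, hA _ _ ?_, hA _ _ ?_, hA _ _ ?_⟩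
  · simp only [Fin.mk_lt_mk]; omega
  · simp only [Fin.mk_lt_mk]; omega
  · simp only [Fin.mk_lt_mk]; omega
  · rw [h]; simp; omega
  · rw [h]; simp
  · rw [h]; simp
  · rw [h]; simp

theorem LSM_cyc_form {P : Matrix (Fin 2) (Fin s) Bool} (h : Form 1 P) (k m : ℕ) (hm : m ≤ k * k) :
    LSM (cyc k m) P ≤ k + 2 * (k * s) := by
  obtain ⟨i, h1, h2, h⟩ := h
  refine LSM_le _ _ fun B hB hav => (ones_le_deep B s).trans (Nat.add_le_add_right ?_ _)
  have hB' : ∀ r c, B r c = true → c.1 % k = r.1 := fun r c h => by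
    simpa [cyc] using hB r c h
  have key : ∀ r r' : Fin k, ∀ c c' : Fin m, (r, c) ∈ deep B s → (r', c') ∈ deep B s →
      c.1 / k = c'.1 / k → r < r' → False := by
    intro r r' c c' hp hp' e hlt
    obtain ⟨b1, -, n1⟩ := mem_deep.1 hp
    obtain ⟨b2, n2, -⟩ := mem_deep.1 hp'
    obtain ⟨eL, hL, mL⟩ := exists_emb _ n2
    obtain ⟨eR, hR, mR⟩ := exists_emb _ n1
    have e1 := hB' _ _ b1
    have e2 := hB' _ _ b2
    have d1 := Nat.div_add_mod c.1 k
    have d2 := Nat.div_add_mod c'.1 k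
    have hlt' : r.1 < r'.1 := hlt
    have hr' := r'.2
    dsimp only at e1 e2 mL mR b1 b2
    rw [e] at d1
    have cc : c < c' := by show c.1 < c'.1; omega
    have aL : ∀ p, eL p < c := fun p => by
      obtain ⟨b0, l0⟩ := mem_lf.1 (mL p)
      have e0 := hB' _ _ b0
      have d0 := Nat.div_add_mod (eL p).1 k
      have l0' : (eL p).1 < c'.1 := l0
      have t0 : (eL p).1 / k < c'.1 / k := by
        by_contra hh
        have : k * (c'.1 / k) ≤ k * ((eL p).1 / k) := Nat.mul_le_mul_left _ (not_lt.1 hh)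
        omega
      have s0 : k * ((eL p).1 / k + 1) ≤ k * (c'.1 / k) := Nat.mul_le_mul_left _ t0
      rw [Nat.mul_add] at s0
      show (eL p).1 < c.1
      omega
    have aR : ∀ p, c' < eR p := fun p => by
      obtain ⟨b0, l0⟩ := mem_rt.1 (mR p)
      have e0 := hB' _ _ b0
      have d0 := Nat.div_add_mod (eR p).1 k
      have l0' : c.1 < (eR p).1 := l0
      have t0 : c'.1 / k < (eR p).1 / k := by
        by_contra hh
        have : k * ((eR p).1 / k) ≤ k * (c'.1 / k) := Nat.mul_le_mul_left _ (not_lt.1 hh)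
        omega
      have s0 : k * (c'.1 / k + 1) ≤ k * ((eR p).1 / k) := Nat.mul_le_mul_left _ t0
      rw [Nat.mul_add] at s0
      show c'.1 < (eR p).1
      omega
    refine hav (contains_two hlt (fun p => if p.1 < i then eL p else if p.1 = i then c else
      if p.1 = i + 1 then c' else eR p) ?_ ?_ ?_)
    · intro p q hpq
      have hpq' : p.1 < q.1 := hpq
      dsimp only
      split_ifs
      all_goals first
        | omega
        | exact hL hpq
        | exact hR hpq
        | exact aL _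
        | exact aR _
        | exact cc
        | exact (aL _).trans cc
        | exact cc.trans (aR _)
        | exact (aL _).trans (cc.trans (aR _))
    · intro j hj
      rw [h] at hj
      simp only [zero_ne_one, false_iff, not_or] at hj
      rw [if_neg hj.1, if_neg hj.2]
      split_ifs
      · exact b1
      · exact (mem_rt.1 (mR j)).1
    · intro j hj
      rw [h] at hj
      simp only [true_iff] at hj
      split_ifs
      · exact (mem_lf.1 (mL j)).1
      · omega
      · exact b2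
      · omega
  have : (deep B s).card ≤ (range k).card := by
    refine card_le_card_of_injOn (fun p => p.2.1 / k) ?_ ?_
    · rintro ⟨r, c⟩ _
      simp only [coe_range, Set.mem_Iio]
      exact Nat.div_lt_of_lt_mul (c.2.trans_le hm)
    · rintro ⟨r, c⟩ hp ⟨r', c'⟩ hp' e
      have h' : c.1 / k = c'.1 / k := e
      rcases lt_trichotomy r r' with hh | hh | hh
      · exact (key r r' c c' hp hp' h' hh).elim
      · subst hh
        have e1 := hB' _ _ (mem_deep.1 hp).1
        have e2 := hB' _ _ (mem_deep.1 hp').1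
        have d1 := Nat.div_add_mod c.1 k
        have d2 := Nat.div_add_mod c'.1 k
        dsimp only at e1 e2
        rw [h'] at d1
        have : c = c' := Fin.ext (by omega)
        rw [this]
      · exact (key r' r c' c hp' hp h'.symm hh).elim
  simpa using this

theorem form_good {P : Matrix (Fin 2) (Fin s) Bool} (h : Form 1 P) :
    Filter.Tendsto (fun n : ℕ => (ex n P : ℝ) / n) Filter.atTop Filter.atTop ∧
      ∃ c₁ c₂ : ℝ, 0 < c₁ ∧ 0 < c₂ ∧ ∀ᶠ m : ℕ in Filter.atTop,
        c₁ * √(m : ℝ) ≤ sm m P ∧ (sm m P : ℝ) ≤ c₂ * √(m : ℝ) := by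
  refine ⟨Filter.tendsto_atTop_mono (fun n => ?_) ex_superlinear, 1, 2 * (1 + 2 * s), one_pos,
    by positivity, ?_⟩
  · have : ex n P₀ ≤ ex n P := ex_mono (contains_P0 h)
    gcongr
  filter_upwards [Filter.eventually_ge_atTop 1] with m hm
  constructor
  · obtain ⟨a, b, A, h1, h2⟩ := sm_attained m P
    have h3 : sm m P₀ ≤ sm m P := (sm_le _ A h1).trans (h2 ▸ LSM_mono A (contains_P0 h))
    rw [one_mul]
    exact (sm_bounds m).1.trans (by exact_mod_cast h3)
  · have h1 := (sm_le P _ (ones_cyc _ m (Nat.succ_pos (Nat.sqrt m)))).trans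
      (LSM_cyc_form h _ m (Nat.lt_succ_sqrt m).le)
    have h2 : (Nat.sqrt m : ℝ) ≤ √(m : ℝ) := Real.nat_sqrt_le_real_sqrt
    have h3 : (sm m P : ℝ) ≤ (Nat.sqrt m + 1) * (1 + 2 * s) := by
      have : (sm m P : ℝ) ≤ ((Nat.sqrt m).succ + 2 * ((Nat.sqrt m).succ * s) : ℕ) := by
        exact_mod_cast h1
      push_cast at this
      linarith
    have h4 : (1 : ℝ) ≤ √(m : ℝ) := Real.one_le_sqrt.2 (by exact_mod_cast hm)
    have h5 : (0 : ℝ) ≤ 1 + 2 * s := by positivity
    nlinarith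

/-- column `c` lies well inside row `x` -/
def Cov (B : Matrix (Fin a) (Fin b) Bool) (s : ℕ) (x : Fin a) (c : Fin b) : Prop :=
  s ≤ (lf B x c).card ∧ s ≤ (rt B x c).card

open Classical in
/-- the 1-entries of row `y` well inside row `x` -/
noncomputable def ins (B : Matrix (Fin a) (Fin b) Bool) (s : ℕ) (x y : Fin a) : Finset (Fin b) :=
  univ.filter fun c => Cov B s x c ∧ B y c = true

theorem mem_ins {B : Matrix (Fin a) (Fin b) Bool} {x y : Fin a} {c : Fin b} :
    c ∈ ins B s x y ↔ Cov B s x c ∧ B y c = true := by simp [ins]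

theorem ins_le {P : Matrix (Fin 2) (Fin s) Bool} {i l : ℕ}
    (h0 : ∀ j, P 0 j = true → j.1 < i ∨ l ≤ j.1) (h1 : ∀ j, P 1 j = true → i ≤ j.1 ∧ j.1 < l)
    {B : Matrix (Fin a) (Fin b) Bool} (hav : ¬ Contains B P) {x y : Fin a}
    (hxy : x < y) : (ins B s x y).card ≤ s := by
  by_contra hh
  have hne : (ins B s x y).Nonempty := card_pos.1 (by omega)
  obtain ⟨e2, m2, k2⟩ := exists_emb (ins B s x y) (k := s) (by omega)
  obtain ⟨e1, m1, k1⟩ := exists_emb _ (mem_ins.1 (min'_mem _ hne)).1.1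
  obtain ⟨e3, m3, k3⟩ := exists_emb _ (mem_ins.1 (max'_mem _ hne)).1.2
  have a12 : ∀ p q, e1 p < e2 q := fun p q =>
    (mem_lf.1 (k1 p)).2.trans_le (min'_le _ _ (k2 q))
  have a23 : ∀ p q, e2 p < e3 q := fun p q =>
    (le_max' _ _ (k2 p)).trans_lt (mem_rt.1 (k3 q)).2
  refine hav (contains_two hxy
    (fun p => if p.1 < i then e1 p else if p.1 < l then e2 p else e3 p) ?_ ?_ ?_)
  · intro p q hpq
    have hpq' : p.1 < q.1 := hpq
    dsimp only
    split_ifs
    all_goals first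
      | omega
      | exact m1 hpq
      | exact m2 hpq
      | exact m3 hpq
      | exact a12 _ _
      | exact a23 _ _
      | exact (a12 _ p).trans (a23 _ _)
  · intro j hj
    have := h0 j hj
    split_ifs
    · exact (mem_lf.1 (k1 j)).1
    · omega
    · exact (mem_rt.1 (k3 j)).1
  · intro j hj
    have := h1 j hj
    rw [if_neg (by omega), if_pos this.2]
    exact (mem_ins.1 (k2 j)).2

theorem three_runs {P : Matrix (Fin 2) (Fin s) Bool} {i l : ℕ}
    (h0 : ∀ j, P 0 j = true → j.1 < i ∨ l ≤ j.1) (h1 : ∀ j, P 1 j = true → i ≤ j.1 ∧ j.1 < l)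
    (n : ℕ) : ex n P ≤ (5 * s + 1) * n := by
  classical
  refine ex_le _ fun B hav => ?_
  have hZ : ∀ x y : Fin n, x < y → (ins B s x y).card ≤ s := fun x y h => ins_le h0 h1 hav h
  have hcov : ∀ p ∈ deep B (2 * s), Cov B s p.1 p.2 := fun p hp =>
    ⟨le_trans (by omega) (mem_deep.1 hp).2.1, le_trans (by omega) (mem_deep.1 hp).2.2⟩
  have hsub : ∀ p ∈ deep B (2 * s), ∀ x, x < p.1 → Cov B s x p.2 → ∀ c, Cov B s x c →
      Cov B s p.1 c := by
    rintro ⟨y, c0⟩ hp x hx hc c hc'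
    obtain ⟨-, n1, n2⟩ := mem_deep.1 hp
    have z := hZ x y hx
    have s1 : lf B y c0 ⊆ lf B y c ∪ ins B s x y := fun w hw => by
      obtain ⟨w1, w2⟩ := mem_lf.1 hw
      rw [mem_union, mem_lf, mem_ins]
      rcases lt_or_ge w c with h | h
      · exact Or.inl ⟨w1, h⟩
      · exact Or.inr ⟨⟨hc'.1.trans (lf_mono B x h), hc.2.trans (rt_anti B x w2.le)⟩, w1⟩
    have s2 : rt B y c0 ⊆ rt B y c ∪ ins B s x y := fun w hw => by
      obtain ⟨w1, w2⟩ := mem_rt.1 hw
      rw [mem_union, mem_rt, mem_ins]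
      rcases lt_or_ge c w with h | h
      · exact Or.inl ⟨w1, h⟩
      · exact Or.inr ⟨⟨hc.1.trans (lf_mono B x w2.le), hc'.2.trans (rt_anti B x h)⟩, w1⟩
    have t1 := (card_le_card s1).trans (card_union_le _ _)
    have t2 := (card_le_card s2).trans (card_union_le _ _)
    dsimp only at n1 n2
    exact ⟨by dsimp only; omega, by dsimp only; omega⟩
  let D1 := (deep B (2 * s)).filter fun p => ¬ ∃ x, x < p.1 ∧ Cov B s x p.2
  let D2 := (deep B (2 * s)).filter fun p => ∃ x, x < p.1 ∧ Cov B s x p.2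
  have c1 : D1.card ≤ n := by
    have : D1.card ≤ (univ : Finset (Fin n)).card := by
      refine card_le_card_of_injOn Prod.snd (fun _ _ => by simp) ?_
      rintro ⟨y, c⟩ hp ⟨y', c'⟩ hp' e
      have e' : c = c' := e
      subst e'
      obtain ⟨p1, p2⟩ := mem_filter.1 (mem_coe.1 hp)
      obtain ⟨q1, q2⟩ := mem_filter.1 (mem_coe.1 hp')
      rcases lt_trichotomy y y' with hh | hh | hh
      · exact (q2 ⟨y, hh, hcov _ p1⟩).elim
      · rw [hh]
      · exact (p2 ⟨y', hh, hcov _ q1⟩).elim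
    simpa using this
  have hx : ∀ p : Fin n × Fin n, ∃ x : Fin n, p ∈ D2 → x < p.1 ∧ Cov B s x p.2 ∧
      ∀ x', x' < p.1 → Cov B s x' p.2 → x' ≤ x := fun p => by
    by_cases hp : p ∈ D2
    · obtain ⟨x, hx⟩ := (mem_filter.1 hp).2
      obtain ⟨x0, h1, h2⟩ := exists_max_image
        (univ.filter fun x => x < p.1 ∧ Cov B s x p.2) id ⟨x, by simpa using hx⟩
      simp only [mem_filter, mem_univ, true_and, id] at h1 h2
      exact ⟨x0, fun _ => ⟨h1.1, h1.2, fun x' a b => h2 x' ⟨a, b⟩⟩⟩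
    · exact ⟨p.1, fun h => (hp h).elim⟩
  choose xf hxf using hx
  have c2 : D2.card ≤ s * (univ : Finset (Fin n)).card := by
    refine card_le_mul_card_image_of_maps_to (f := xf) (fun _ _ => mem_univ _) s fun x _ => ?_
    rcases (D2.filter fun p => xf p = x).eq_empty_or_nonempty with h | ⟨p0, hp0⟩
    · rw [h]; simp
    obtain ⟨p1, rfl⟩ := mem_filter.1 hp0
    have same : ∀ p ∈ D2, ∀ q ∈ D2, xf p = xf q → ¬ p.1 < q.1 := fun p hp q hq e hlt => by
      obtain ⟨a1, a2, -⟩ := hxf p hp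
      obtain ⟨-, b2, b3⟩ := hxf q hq
      have := b3 p.1 hlt (hsub p (mem_filter.1 hp).1 _ a1 a2 _ (e ▸ b2))
      exact absurd (e ▸ a1) (not_lt.2 this)
    refine le_trans (card_le_card_of_injOn Prod.snd ?_ ?_) (hZ _ _ (hxf p0 p1).1)
    · intro q hq
      obtain ⟨q1, q2⟩ := mem_filter.1 (mem_coe.1 hq)
      have e : q.1 = p0.1 := le_antisymm (not_lt.1 (same _ p1 _ q1 q2.symm))
        (not_lt.1 (same _ q1 _ p1 q2))
      rw [mem_coe, mem_ins, ← q2, ← e]
      exact ⟨(hxf q q1).2.1, (mem_deep.1 (mem_filter.1 q1).1).1⟩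
    · intro q hq q' hq' e
      obtain ⟨q1, q2⟩ := mem_filter.1 (mem_coe.1 hq)
      obtain ⟨q3, q4⟩ := mem_filter.1 (mem_coe.1 hq')
      exact Prod.ext (le_antisymm (not_lt.1 (same _ q3 _ q1 (q4.trans q2.symm)))
        (not_lt.1 (same _ q1 _ q3 (q2.trans q4.symm)))) e
  have c3 : D2.card + D1.card = (deep B (2 * s)).card := card_filter_add_card_filter_not _
  have c4 := ones_le_deep B (2 * s)
  rw [card_univ, Fintype.card_fin] at c2
  nlinarith

theorem not_supLin {r : ℕ} {P : Matrix (Fin r) (Fin s) Bool} {C : ℕ} (h : ∀ n, ex n P ≤ C * n) :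
    ¬ SupLin P := fun hs => by
  obtain ⟨n0, h0⟩ := hs (C + 1)
  have := (h0 (n0 + 1) (by omega)).trans (h _)
  nlinarith

end Pool.Agent.Lib.MP_f2a48e_co.Cl
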