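import Pool.Agent.Lib.MP_f2a48e_co.K1

/-! Patterns with two ones in a row and two ones in a column. -/

set_option autoImplicit false

namespace Pool.Agent.Lib.MP_f2a48e_co.Cl

open Finset

variable {a b r s : ℕ}

theorem rows_le {P : Matrix (Fin r) (Fin s) Bool}
    (h : ∃ i j j', j ≠ j' ∧ P i j = true ∧ P i j' = true) (A : Matrix (Fin a) (Fin b) Bool) :
    ((pts A).image Prod.fst).card ≤ LSM A P := by
  obtain ⟨S, h1, h2, h3⟩ := exists_subset_injOn_image_eq_of_surjOn (f := Prod.fst)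
    (pts A : Set (Fin a × Fin b)) ((pts A).image Prod.fst) (by simp [Set.SurjOn])
  rw [← h3, card_image_of_injOn h2]
  refine le_LSM A S (coe_subset.1 h1) ?_
  rintro ⟨f, g, -, hg, hc⟩
  obtain ⟨i, j, j', hj, p1, p2⟩ := h
  have := h2 (mat_iff.1 (hc i j p1)) (mat_iff.1 (hc i j' p2)) rfl
  exact hj (hg.injective (Prod.mk.inj this).2)

theorem cols_le {P : Matrix (Fin r) (Fin s) Bool}
    (h : ∃ i i' j, i ≠ i' ∧ P i j = true ∧ P i' j = true) (A : Matrix (Fin a) (Fin b) Bool) :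
    ((pts A).image Prod.snd).card ≤ LSM A P := by
  obtain ⟨S, h1, h2, h3⟩ := exists_subset_injOn_image_eq_of_surjOn (f := Prod.snd)
    (pts A : Set (Fin a × Fin b)) ((pts A).image Prod.snd) (by simp [Set.SurjOn])
  rw [← h3, card_image_of_injOn h2]
  refine le_LSM A S (coe_subset.1 h1) ?_
  rintro ⟨f, g, hf, -, hc⟩
  obtain ⟨i, i', j, hj, p1, p2⟩ := h
  have := h2 (mat_iff.1 (hc i j p1)) (mat_iff.1 (hc i' j p2)) rfl
  exact hj (hf.injective (Prod.mk.inj this).1)

theorem shift {P : Matrix (Fin r) (Fin s) Bool} (hr : ∀ i, ∃ j, P i j = true)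
    (hc : ∀ j, ∃ i, P i j = true) (A : Matrix (Fin a) (Fin b) Bool) {G : ℕ}
    (h1 : ((pts A).image Prod.fst).card ≤ G) (h2 : ((pts A).image Prod.snd).card ≤ G)
    (M : Matrix (Fin G) (Fin G) Bool) (hM : ¬ Contains M P) :
    ones A * ones M ≤ LSM A P * (2 * G * (2 * G)) := by
  classical
  set R := (pts A).image Prod.fst
  set C := (pts A).image Prod.snd
  have mR : ∀ p ∈ pts A, p.1 ∈ R := fun p hp => mem_image_of_mem _ hp
  have mC : ∀ p ∈ pts A, p.2 ∈ C := fun p hp => mem_image_of_mem _ hp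
  have := card_le_mul_card_image_of_maps_to (s := pts A ×ˢ pts M)
    (t := range (2 * G) ×ˢ range (2 * G))
    (f := fun z => (rk R z.1.1 + G - z.2.1.1, rk C z.1.2 + G - z.2.2.1)) ?_ (LSM A P) ?_
  · simpa only [card_product, card_range, ones_eq] using this
  · rintro ⟨p, q⟩ hz
    have hp := (mem_product.1 hz).1
    have a1 := rk_lt_card R (mR p hp)
    have a2 := rk_lt_card C (mC p hp)
    simp only [mem_product, mem_range]
    omega
  rintro ⟨x, y⟩ -
  let S := (pts A).filter fun p => ∃ q ∈ pts M, rk R p.1 + G = q.1.1 + x ∧ rk C p.2 + G = q.2.1 + y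
  refine le_trans (card_le_card_of_injOn Prod.fst ?_ ?_) (le_LSM A S (filter_subset _ _) ?_)
  · rintro ⟨p, q⟩ hz
    obtain ⟨z1, z2⟩ := mem_filter.1 (mem_coe.1 hz)
    simp only [Prod.mk.injEq] at z2
    have := q.1.2
    have := q.2.2
    exact mem_coe.2 (mem_filter.2 ⟨(mem_product.1 z1).1, q, (mem_product.1 z1).2,
      by dsimp only; omega, by dsimp only; omega⟩)
  · rintro ⟨p, q⟩ hz ⟨p', q'⟩ hz' e
    have e' : p = p' := e
    subst e'
    obtain ⟨-, z2⟩ := mem_filter.1 (mem_coe.1 hz)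
    obtain ⟨-, z3⟩ := mem_filter.1 (mem_coe.1 hz')
    simp only [Prod.mk.injEq] at z2 z3
    have := q.1.2
    have := q.2.2
    have := q'.1.2
    have := q'.2.2
    exact Prod.ext rfl (Prod.ext (Fin.ext (by dsimp only; omega)) (Fin.ext (by dsimp only; omega)))
  · rintro ⟨f, g, hf, hg, h⟩
    have k : ∀ i j, P i j = true → (f i, g j) ∈ pts A ∧ ∃ q ∈ pts M,
        rk R (f i) + G = q.1.1 + x ∧ rk C (g j) + G = q.2.1 + y :=
      fun i j hij => mem_filter.1 (mat_iff.1 (h i j hij))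
    have kf : ∀ i, f i ∈ R ∧ ∃ u : Fin G, rk R (f i) + G = u.1 + x := fun i => by
      obtain ⟨j, hj⟩ := hr i
      obtain ⟨k1, q, -, k2, -⟩ := k i j hj
      exact ⟨mR _ k1, q.1, k2⟩
    have kg : ∀ j, g j ∈ C ∧ ∃ u : Fin G, rk C (g j) + G = u.1 + y := fun j => by
      obtain ⟨i, hi⟩ := hc j
      obtain ⟨k1, q, -, -, k2⟩ := k i j hi
      exact ⟨mC _ k1, q.2, k2⟩
    choose f1 f' f2 using kf
    choose g1 g' g2 using kg
    refine hM ⟨f', g', fun i i' hi => ?_, fun j j' hj => ?_, fun i j hij => ?_⟩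
    · have := rk_lt R (f1 i) (hf hi)
      have := f2 i
      have := f2 i'
      show (f' i).1 < (f' i').1
      omega
    · have := rk_lt C (g1 j) (hg hj)
      have := g2 j
      have := g2 j'
      show (g' j).1 < (g' j').1
      omega
    · obtain ⟨-, q, q1, q2, q3⟩ := k i j hij
      have := f2 i
      have := g2 j
      rw [show f' i = q.1 from Fin.ext (by omega), show g' j = q.2 from Fin.ext (by omega)]
      exact mem_pts.1 q1

theorem big_of_heavy {P : Matrix (Fin r) (Fin s) Bool} (hr : ∀ i, ∃ j, P i j = true)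
    (hc : ∀ j, ∃ i, P i j = true) (h1 : ∃ i j j', j ≠ j' ∧ P i j = true ∧ P i j' = true)
    (h2 : ∃ i i' j, i ≠ i' ∧ P i j = true ∧ P i' j = true) (hs : SupLin P) : Big P := by
  intro K
  obtain ⟨n0, h0⟩ := hs (4 * (K * K) + 1)
  refine ⟨(n0 + 1) * (n0 + 1), fun m hm => ?_⟩
  obtain ⟨a, b, A, rfl, e⟩ := sm_attained m P
  have r1 := rows_le h1 A
  have r2 := cols_le h2 A
  have r3 : ones A ≤ LSM A P * LSM A P := by
    refine le_trans (card_le_card (t := (pts A).image Prod.fst ×ˢ (pts A).image Prod.snd)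
      fun p hp => mem_product.2 ⟨mem_image_of_mem _ hp, mem_image_of_mem _ hp⟩) ?_
    rw [card_product]
    exact Nat.mul_le_mul r1 r2
  have r4 : n0 + 1 ≤ LSM A P := Nat.mul_self_le_mul_self_iff.1 (hm.trans r3)
  have r5 := h0 (LSM A P) (by omega)
  obtain ⟨M, m1, m2⟩ := ex_attained (n := LSM A P) (P := P)
    (lt_of_lt_of_le (Nat.mul_pos (by omega) (by omega)) r5)
  have r6 := shift hr hc A r1 r2 M m1
  rw [← e]
  rw [m2] at r6
  have r7 := (Nat.mul_le_mul_left (ones A) r5).trans r6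
  generalize LSM A P = G at r4 r7 ⊢
  refine Nat.le_of_mul_le_mul_left (c := 4 * G) ?_ (by omega)
  nlinarith [Nat.zero_le (ones A * G)]

theorem one_col {P : Matrix (Fin 2) (Fin s) Bool} (hs : s ≤ 1) (n : ℕ) : ex n P ≤ 1 * n := by
  refine ex_le _ fun B hB => ?_
  have : (pts B).card ≤ (univ : Finset (Fin n)).card := by
    refine card_le_card_of_injOn Prod.snd (fun _ _ => by simp) ?_
    have key : ∀ x y c, x < y → B x c = true → B y c = true → False := fun x y c h b1 b2 =>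
      hB (contains_two h (fun _ => c) (fun p q hpq => by
        have := q.2
        have : p.1 < q.1 := hpq
        omega) (fun _ _ => b1) fun _ _ => b2)
    rintro ⟨x, c⟩ hp ⟨y, c'⟩ hq e
    have e' : c = c' := e
    subst e'
    rcases lt_trichotomy x y with h | h | h
    · exact (key _ _ _ h (mem_pts.1 hp) (mem_pts.1 hq)).elim
    · rw [h]
    · exact (key _ _ _ h (mem_pts.1 hq) (mem_pts.1 hp)).elim
  simpa [ones_eq] using this

end Pool.Agent.Lib.MP_f2a48e_co.Cl
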