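import Pool.Agent.Lib.MP_f2a48e_co.K1

/-! Ramsey's theorem for pairs, thinned extremal matrices, and their embedding in a window. -/

set_option autoImplicit false

namespace Pool.Agent.Lib.MP_f2a48e_co.Cl

open Finset

theorem endhom (κ : Type) [Fintype κ] (N : ℕ) : ∃ R : ℕ, ∀ (X : Finset ℕ) (c : ℕ → ℕ → κ),
    R ≤ X.card → ∃ Y ⊆ X, N ≤ Y.card ∧ ∃ f : ℕ → κ, ∀ x ∈ Y, ∀ y ∈ Y, x < y → c x y = f x := by
  classical
  induction N with
  | zero => exact ⟨0, fun X c _ => ⟨∅, empty_subset _, le_rfl, fun x => c x x, by simp⟩⟩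
  | succ N ih =>
    obtain ⟨R, hR⟩ := ih
    refine ⟨Fintype.card κ * R + 1, fun X c hX => ?_⟩
    have hne : X.Nonempty := card_pos.1 (by omega)
    have hm := min'_mem X hne
    obtain ⟨k, -, hk⟩ := exists_le_card_fiber_of_mul_le_card_of_maps_to (s := X.erase (X.min' hne))
      (t := univ) (f := c (X.min' hne)) (n := R) (fun _ _ => mem_univ _) ⟨c 0 0, mem_univ _⟩
      (by rw [card_erase_of_mem hm, card_univ]; omega)
    obtain ⟨Y, h1, h2, f, hf⟩ := hR _ c hk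
    have h3 : ∀ y ∈ Y, y ≠ X.min' hne ∧ y ∈ X ∧ c (X.min' hne) y = k := fun y hy => by
      have := h1 hy
      simp only [mem_filter, mem_erase] at this
      exact ⟨this.1.1, this.1.2, this.2⟩
    refine ⟨insert (X.min' hne) Y, insert_subset hm fun y hy => (h3 y hy).2.1, ?_,
      Function.update f (X.min' hne) k, ?_⟩
    · rw [card_insert_of_notMem fun h => (h3 _ h).1 rfl]
      omega
    · intro x hx y hy hxy
      rcases mem_insert.1 hx with rfl | hx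
      · rw [Function.update_self]
        exact (h3 y ((mem_insert.1 hy).resolve_left hxy.ne')).2.2
      · rw [Function.update_of_ne (h3 x hx).1]
        refine hf x hx y ((mem_insert.1 hy).resolve_left ?_) hxy
        exact ((min'_le X x (h3 x hx).2.1).trans_lt hxy).ne'

theorem ramsey (κ ι : Type) [Fintype κ] [Fintype ι] (n : ℕ) : ∃ R : ℕ, ∀ (X : Finset ℕ)
    (c : ℕ → ℕ → κ) (v : ℕ → ι), R ≤ X.card → ∃ Y ⊆ X, n ≤ Y.card ∧ ∃ k i,
      (∀ x ∈ Y, v x = i) ∧ ∀ x ∈ Y, ∀ y ∈ Y, x < y → c x y = k := by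
  classical
  obtain ⟨R, hR⟩ := endhom κ (Fintype.card (κ × ι) * n)
  refine ⟨R, fun X c v hX => ?_⟩
  obtain ⟨Y, h1, h2, f, hf⟩ := hR X c hX
  obtain ⟨⟨k, i⟩, -, hk⟩ := exists_le_card_fiber_of_mul_le_card_of_maps_to (s := Y)
    (t := univ) (f := fun x => (f x, v x)) (n := n) (fun _ _ => mem_univ _)
    ⟨(c 0 0, v 0), mem_univ _⟩ h2
  refine ⟨_, (filter_subset _ _).trans h1, hk, k, i, fun x hx => ?_, fun x hx y hy hxy => ?_⟩
  · exact (Prod.mk.inj (mem_filter.1 hx).2).2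
  · rw [hf x (mem_filter.1 hx).1 y (mem_filter.1 hy).1 hxy]
    exact (Prod.mk.inj (mem_filter.1 hx).2).1

/-- no alternation `b a b a`, even with `b a` in one column -/
def Wk {n : ℕ} (M : Finset (Fin n × Fin n)) : Prop :=
  ∀ i i' c1 c2 c3 c4, i < i' → c1 ≤ c2 → c2 < c3 → c3 ≤ c4 →
    (i', c1) ∈ M → (i, c2) ∈ M → (i', c3) ∈ M → (i, c4) ∈ M → False

theorem gadget (K : ℕ) : ∃ n, 0 < n ∧ ∃ M : Finset (Fin n × Fin n), K * n ≤ M.card ∧ Wk M := by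
  obtain ⟨n0, h0⟩ := supLin_of ex_superlinear (K + 2)
  have h1 := h0 (n0 + 1) (by omega)
  obtain ⟨A, a1, a2⟩ := ex_attained (n := n0 + 1) (P := P₀)
    (lt_of_lt_of_le (Nat.mul_pos (by omega) (by omega)) h1)
  refine ⟨n0 + 1, by omega, deep A 1, ?_, ?_⟩
  · have := ones_le_deep A 1
    rw [a2] at this
    nlinarith
  · intro i i' c1 c2 c3 c4 hi k1 k2 k3 m1 m2 m3 m4
    obtain ⟨u, hu⟩ := card_pos.1 (mem_deep.1 m1).2.1
    obtain ⟨v, hv⟩ := card_pos.1 (mem_deep.1 m4).2.2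
    exact a1 ((contains_iff A).2 ⟨i, i', u, c2, c3, v, hi, (mem_lf.1 hu).2.trans_le k1, k2,
      k3.trans_lt (mem_rt.1 hv).2, (mem_lf.1 hu).1, (mem_deep.1 m2).1, (mem_deep.1 m3).1,
      (mem_rt.1 hv).1⟩)

/-- the words `b a a b a`, `b a b b a` with `a < b` (for `true`) and `a b a b a` with `a ≠ b` -/
def Rl (μ : Bool) (a b c d e : ℕ) : Prop :=
  (μ = true ∧ b < a ∧ d = a ∧ e = b ∧ (c = a ∨ c = b)) ∨ (μ = false ∧ a ≠ b ∧ c = a ∧ e = a ∧ d = b)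

/-- the subsequence on `T` avoids these words -/
def Av (μ : Bool) (σ : ℕ → ℕ) (T : Finset ℕ) : Prop :=
  ∀ t1 ∈ T, ∀ t2 ∈ T, ∀ t3 ∈ T, ∀ t4 ∈ T, ∀ t5 ∈ T, t1 < t2 → t2 < t3 → t3 < t4 → t4 < t5 →
    ¬ Rl μ (σ t1) (σ t2) (σ t3) (σ t4) (σ t5)

theorem av_embed (μ : Bool) {n : ℕ} {M : Finset (Fin n × Fin n)} (hM : Wk M) (σ : ℕ → ℕ)
    (p : Fin n → Fin n → ℕ) (φ : Fin n → ℕ) (hφ : Function.Injective φ) (hp : ∀ i c, σ (p i c) = φ i)
    (hc : ∀ i c i' c', p i c < p i' c' → c ≤ c') (h1 : μ = true → StrictMono φ)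
    (h2 : μ = false → ∀ i i' c, i < i' → ¬ p i c < p i' c) :
    Av μ σ (M.image fun z => p z.1 z.2) := by
  intro t1 m1 t2 m2 t3 m3 t4 m4 t5 m5 l1 l2 l3 l4
  obtain ⟨⟨i1, c1⟩, n1, rfl⟩ := mem_image.1 m1
  obtain ⟨⟨i2, c2⟩, n2, rfl⟩ := mem_image.1 m2
  obtain ⟨⟨i3, c3⟩, n3, rfl⟩ := mem_image.1 m3
  obtain ⟨⟨i4, c4⟩, n4, rfl⟩ := mem_image.1 m4
  obtain ⟨⟨i5, c5⟩, n5, rfl⟩ := mem_image.1 m5
  dsimp only at l1 l2 l3 l4
  have d1 := hc _ _ _ _ l1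
  have d2 := hc _ _ _ _ l2
  have d3 := hc _ _ _ _ l3
  have d4 := hc _ _ _ _ l4
  simp only [hp, Rl, hφ.eq_iff, hφ.ne_iff]
  rintro (⟨h, a1, rfl, rfl, a4⟩ | ⟨h, a1, rfl, rfl, rfl⟩)
  · refine hM _ _ c1 c2 c4 c5 ((h1 h).lt_iff_lt.1 a1) d1 ?_ d4 n1 n2 n4 n5
    rcases a4 with rfl | rfl
    · exact d2.trans_lt (d3.lt_of_ne fun e => by subst e; exact lt_irrefl _ l3)
    · exact (d2.lt_of_ne fun e => by subst e; exact lt_irrefl _ l2).trans_le d3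
  · rcases a1.lt_or_gt with a | a
    · exact hM _ _ c2 c3 c4 c5 a d2 (d3.lt_of_ne fun e => by subst e; exact h2 h _ _ _ a l3) d4
        n2 n3 n4 n5
    · exact hM _ _ c1 c2 c3 c4 a d1 (d2.lt_of_ne fun e => by subst e; exact h2 h _ _ _ a l2) d3
        n1 n2 n3 n4

open Classical in
/-- the blocks of the window `w` in which the letter `x` occurs -/
noncomputable def occ (σ blk : ℕ → ℕ) (m W w x : ℕ) : Finset (Fin W) :=
  univ.filter fun i => ∃ t, t < m ∧ σ t = x ∧ blk t = w * W + i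

theorem mem_occ {σ blk : ℕ → ℕ} {m W w x : ℕ} {i : Fin W} :
    i ∈ occ σ blk m W w x ↔ ∃ t, t < m ∧ σ t = x ∧ blk t = w * W + i := by simp [occ]

theorem window (μ : Bool) {n : ℕ} (hn : 0 < n) {M : Finset (Fin n × Fin n)} (hM : Wk M) (W : ℕ) :
    ∃ R : ℕ, ∀ (σ blk : ℕ → ℕ) (m w : ℕ) (X : Finset ℕ), Monotone blk → R ≤ X.card →
      (∀ x ∈ X, 2 * n ≤ (occ σ blk m W w x).card) →
      ∃ T ⊆ range m, (∀ t ∈ T, blk t / W = w) ∧ Av μ σ T ∧ (∀ t ∈ T, σ t ∈ X) ∧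
        (T.image σ).card ≤ n ∧ M.card ≤ T.card := by
  classical
  obtain ⟨R, hR⟩ := ramsey (Fin W → Bool) (Finset (Fin W)) n
  refine ⟨R, fun σ blk m w X hb hX hd => ?_⟩
  have hpos : ∀ (x : ℕ) (i : Fin W), ∃ t, i ∈ occ σ blk m W w x →
      t < m ∧ σ t = x ∧ blk t = w * W + i := fun x i => by
    by_cases h : i ∈ occ σ blk m W w x
    · obtain ⟨t, ht⟩ := mem_occ.1 h
      exact ⟨t, fun _ => ht⟩
    · exact ⟨0, fun h' => (h h').elim⟩
  choose pos hpos using hpos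
  obtain ⟨Y, y1, y2, k, τ, y3, y4⟩ := hR X (fun x y i => decide (pos x i < pos y i))
    (occ σ blk m W w) hX
  obtain ⟨φ, f1, f2⟩ := exists_emb Y y2
  have hτ : 2 * n ≤ τ.card := y3 _ (f2 ⟨0, hn⟩) ▸ hd _ (y1 (f2 _))
  obtain ⟨e, -, he⟩ := exists_le_card_fiber_of_mul_le_card_of_maps_to (s := τ)
    (t := univ) (f := k) (n := n) (fun _ _ => mem_univ _) ⟨true, mem_univ _⟩ (by simpa using hτ)
  obtain ⟨ψ, g1, g2⟩ := exists_emb _ he
  have q : ∀ i c, pos (φ i) (ψ c) < m ∧ σ (pos (φ i) (ψ c)) = φ i ∧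
      blk (pos (φ i) (ψ c)) = w * W + ψ c := fun i c =>
    hpos _ _ (y3 _ (f2 i) ▸ (mem_filter.1 (g2 c)).1)
  have o : ∀ i i' c, i < i' → (pos (φ i) (ψ c) < pos (φ i') (ψ c) ↔ e = true) := fun i i' c h => by
    rw [← (mem_filter.1 (g2 c)).2, ← y4 _ (f2 i) _ (f2 i') (f1 h)]
    simp
  obtain ⟨ρ, r1, r2, r3⟩ : ∃ ρ : Fin n → Fin n, Function.Injective ρ ∧ (μ = true → ρ = id) ∧
      (μ = false → ∀ i i' c, i < i' → ¬ pos (φ (ρ i)) (ψ c) < pos (φ (ρ i')) (ψ c)) := by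
    by_cases h : μ = false ∧ e = true
    · exact ⟨Fin.rev, Fin.rev_injective, fun h' => by simp [h'] at h, fun _ i i' c hi =>
        lt_asymm ((o _ _ c (Fin.rev_lt_rev.2 hi)).2 h.2)⟩
    · exact ⟨id, Function.injective_id, fun _ => rfl, fun h' i i' c hi hh =>
        h ⟨h', (o _ _ c hi).1 hh⟩⟩
  refine ⟨M.image fun z => pos (φ (ρ z.1)) (ψ z.2), ?_, ?_, ?_, ?_, ?_, ?_⟩
  · intro t ht
    obtain ⟨z, -, rfl⟩ := mem_image.1 ht
    exact mem_range.2 (q _ _).1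
  · intro t ht
    obtain ⟨z, -, rfl⟩ := mem_image.1 ht
    have := (ψ z.2).2
    rw [(q _ _).2.2, Nat.mul_comm, Nat.mul_add_div (by omega), Nat.div_eq_of_lt this, add_zero]
  · refine av_embed μ hM σ (fun i c => pos (φ (ρ i)) (ψ c)) (fun i => φ (ρ i))
      (f1.injective.comp r1) (fun i c => (q _ _).2.1) (fun i c i' c' h => ?_)
      (fun h => by simpa [r2 h] using f1) r3
    have := hb h.le
    rw [(q _ _).2.2, (q _ _).2.2] at this
    exact g1.le_iff_le.1 (show (ψ c).1 ≤ (ψ c').1 by omega)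
  · intro t ht
    obtain ⟨z, -, rfl⟩ := mem_image.1 ht
    rw [(q _ _).2.1]
    exact y1 (f2 _)
  · refine le_trans (card_le_card (t := univ.image φ) fun x hx => ?_)
      (card_image_le.trans (by simp))
    obtain ⟨t, ht, rfl⟩ := mem_image.1 hx
    obtain ⟨z, -, rfl⟩ := mem_image.1 ht
    rw [(q _ _).2.1]
    exact mem_image_of_mem _ (mem_univ _)
  · refine (card_image_of_injOn fun z _ z' _ h => ?_).ge
    have a1 := congrArg σ h
    have a2 := congrArg blk h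
    simp only [(q _ _).2.1, (q _ _).2.2] at a1 a2
    exact Prod.ext (r1 (f1.injective a1)) (g1.injective (Fin.ext (by omega)))

end Pool.Agent.Lib.MP_f2a48e_co.Cl
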