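import Pool.Agent.Lib.MP_f2a48e_co.K4

/-! Every long sequence has a long subsequence that avoids the words of length five. -/

set_option autoImplicit false

namespace Pool.Agent.Lib.MP_f2a48e_co.Cl

open Finset

theorem av_union {μ : Bool} {σ win : ℕ → ℕ} (hw : Monotone win) {T T' U : Finset ℕ} {w : ℕ}
    (h : Av μ σ T) (h' : Av μ σ T') (a : ∀ t ∈ T, σ t ∈ U ∧ win t ≠ w)
    (b : ∀ t ∈ T', σ t ∉ U ∧ win t = w) : Av μ σ (T ∪ T') := by
  have k1 : ∀ t ∈ T ∪ T', (win t = w → t ∈ T') ∧ (win t ≠ w → t ∈ T) ∧ (win t = w ↔ σ t ∉ U) :=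
    fun t ht => by
      rcases mem_union.1 ht with ht | ht
      · have := a t ht; tauto
      · have := b t ht; tauto
  have k2 : ∀ t ∈ T ∪ T', ∀ t' ∈ T ∪ T', σ t = σ t' → (win t = w ↔ win t' = w) :=
    fun t ht t' ht' e => by rw [(k1 t ht).2.2, (k1 t' ht').2.2, e]
  intro t1 m1 t2 m2 t3 m3 t4 m4 t5 m5 l1 l2 l3 l4 hR
  have d1 := hw l1.le
  have d2 := hw l2.le
  have d3 := hw l3.le
  have d4 := hw l4.le
  have key : (win t1 = w ∧ win t2 = w ∧ win t3 = w ∧ win t4 = w ∧ win t5 = w) ∨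
      (win t1 ≠ w ∧ win t2 ≠ w ∧ win t3 ≠ w ∧ win t4 ≠ w ∧ win t5 ≠ w) := by
    rcases hR with ⟨-, -, a1, a2, a3 | a3⟩ | ⟨-, -, a1, a2, a3⟩ <;>
      have e1 := k2 _ (by assumption) _ (by assumption) a1 <;>
      have e2 := k2 _ (by assumption) _ (by assumption) a2 <;>
      have e3 := k2 _ (by assumption) _ (by assumption) a3 <;> omega
  rcases key with ⟨b1, b2, b3, b4, b5⟩ | ⟨b1, b2, b3, b4, b5⟩
  · exact h' _ ((k1 _ m1).1 b1) _ ((k1 _ m2).1 b2) _ ((k1 _ m3).1 b3) _ ((k1 _ m4).1 b4) _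
      ((k1 _ m5).1 b5) l1 l2 l3 l4 hR
  · exact h _ ((k1 _ m1).2.1 b1) _ ((k1 _ m2).2.1 b2) _ ((k1 _ m3).2.1 b3) _ ((k1 _ m4).2.1 b4) _
      ((k1 _ m5).2.1 b5) l1 l2 l3 l4 hR

theorem greedy (μ : Bool) (σ win : ℕ → ℕ) (hw : Monotone win) (m n γ : ℕ) (Wn : Finset ℕ) :
    ∃ V ⊆ Wn, ∃ U T : Finset ℕ, T ⊆ range m ∧ Av μ σ T ∧ (∀ t ∈ T, σ t ∈ U ∧ win t ∈ V) ∧
      γ * V.card ≤ T.card ∧ U.card ≤ n * V.card ∧ ∀ w ∈ Wn, w ∉ V → ∀ T' ⊆ range m,
        (∀ t ∈ T', win t = w) → Av μ σ T' → (∀ t ∈ T', σ t ∉ U) → (T'.image σ).card ≤ n →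
          T'.card < γ := by
  induction Wn using Finset.induction_on with
  | empty => exact ⟨∅, Subset.rfl, ∅, ∅, empty_subset _, by simp [Av], by simp⟩
  | insert w Wn hw' ih =>
    obtain ⟨V, v1, U, T, t1, t2, t3, t4, t5, t6⟩ := ih
    have hV : w ∉ V := fun h => hw' (v1 h)
    by_cases h : ∃ T' ⊆ range m, (∀ t ∈ T', win t = w) ∧ Av μ σ T' ∧ (∀ t ∈ T', σ t ∉ U) ∧
        (T'.image σ).card ≤ n ∧ γ ≤ T'.card
    · obtain ⟨T', a1, a2, a3, a4, a5, a6⟩ := h
      have hne : ∀ t ∈ T, win t ≠ w := fun t ht e => hV (e ▸ (t3 t ht).2)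
      refine ⟨insert w V, insert_subset_insert _ v1, U ∪ T'.image σ, T ∪ T', union_subset t1 a1,
        av_union hw t2 a3 (fun t ht => ⟨(t3 t ht).1, hne t ht⟩) fun t ht => ⟨a4 t ht, a2 t ht⟩,
        ?_, ?_, ?_, ?_⟩
      · intro t ht
        rcases mem_union.1 ht with ht | ht
        · exact ⟨mem_union_left _ (t3 t ht).1, mem_insert_of_mem (t3 t ht).2⟩
        · exact ⟨mem_union_right _ (mem_image_of_mem _ ht), a2 t ht ▸ mem_insert_self _ _⟩
      · rw [card_insert_of_notMem hV,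
          card_union_of_disjoint (disjoint_left.2 fun t ht ht' => hne t ht (a2 t ht')), Nat.mul_succ]
        omega
      · have := card_union_le U (T'.image σ)
        rw [card_insert_of_notMem hV, Nat.mul_succ]
        omega
      · intro w' b1 b2 S s1 s2 s3 s4 s5
        rw [mem_insert, not_or] at b2
        exact t6 w' ((mem_insert.1 b1).resolve_left b2.1) b2.2 S s1 s2 s3
          (fun t ht hu => s4 t ht (mem_union_left _ hu)) s5
    · refine ⟨V, v1.trans (subset_insert _ _), U, T, t1, t2, t3, t4, t5, ?_⟩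
      intro w' b1 b2 S s1 s2 s3 s4 s5
      rcases mem_insert.1 b1 with rfl | b1
      · exact not_le.1 fun hh => h ⟨S, s1, s2, s3, s4, s5, hh⟩
      · exact t6 w' b1 b2 S s1 s2 s3 s4 s5

theorem card_div_le (S V : Finset ℕ) {d : ℕ} (hd : 0 < d) :
    (S.filter fun t => t / d ∈ V).card ≤ d * V.card := by
  refine card_le_mul_card_image_of_maps_to (f := fun t => t / d)
    (fun t ht => (mem_filter.1 ht).2) d fun j _ => ?_
  refine le_trans (card_le_card_of_injOn (t := range d) (fun t => t % d)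
    (fun t _ => mem_coe.2 (mem_range.2 (Nat.mod_lt _ hd))) fun t ht t' ht' e => ?_) (by simp)
  have a1 : t / d = j := (mem_filter.1 (mem_coe.1 ht)).2
  have a2 : t' / d = j := (mem_filter.1 (mem_coe.1 ht')).2
  have e' : t % d = t' % d := e
  rw [← Nat.div_add_mod t d, ← Nat.div_add_mod t' d, a1, a2, e']

theorem av_const (μ : Bool) {σ : ℕ → ℕ} {T : Finset ℕ} {x : ℕ} (h : ∀ t ∈ T, σ t = x) :
    Av μ σ T := by
  intro t1 m1 t2 m2 t3 _ t4 _ t5 _ _ _ _ _ hR
  rw [h t1 m1, h t2 m2] at hR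
  rcases hR with h | h
  · exact lt_irrefl _ h.2.1
  · exact h.2.1 rfl

/-- pairs of a letter and a block in which it occurs -/
def inc (σ : ℕ → ℕ) (l : ℕ) : Finset (ℕ × ℕ) := (range (l * l)).image fun t => (σ t, t / l)

theorem dense (μ : Bool) (σ : ℕ → ℕ) {l k : ℕ} (hl : 0 < l) (hk : 0 < k)
    (hG : ∀ T ⊆ range (l * l), Av μ σ T → T.card ≤ k * l) :
    l * l ≤ 2 * (2 * k * (k + 1)) * (inc σ l).card := by
  obtain ⟨V, -, U, T, t1, t2, -, t4, t5, t6⟩ := greedy μ σ (· / l)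
    (fun _ _ h => Nat.div_le_div_right h) (l * l) 1 (2 * k * (k + 1)) (range l)
  have a1 := t4.trans (hG T t1 t2)
  have s1 := card_div_le (range (l * l)) V hl
  have s2 : ((range (l * l)).filter fun t => σ t ∈ U).card ≤ k * l * U.card :=
    card_le_mul_card_image_of_maps_to (f := σ) (fun t ht => (mem_filter.1 ht).2) _ fun x _ =>
      hG _ ((filter_subset _ _).trans (filter_subset _ _))
        (av_const μ fun t ht => (mem_filter.1 ht).2)
  have s3 : ((range (l * l)).filter fun t => t / l ∉ V ∧ σ t ∉ U).card ≤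
      2 * k * (k + 1) * (inc σ l).card := by
    refine card_le_mul_card_image_of_maps_to (f := fun t => (σ t, t / l))
      (fun t ht => mem_image_of_mem _ (mem_filter.1 ht).1) _ ?_
    rintro ⟨x, j⟩ -
    rcases (((range (l * l)).filter fun t => t / l ∉ V ∧ σ t ∉ U).filter
      fun t => (σ t, t / l) = (x, j)).eq_empty_or_nonempty with h | ⟨t0, h⟩
    · rw [h]; simp
    simp only [mem_filter, mem_range, Prod.mk.injEq] at h
    refine (t6 j (mem_range.2 (h.2.2 ▸ Nat.div_lt_of_lt_mul h.1.1)) (h.2.2 ▸ h.1.2.1) _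
      ((filter_subset _ _).trans (filter_subset _ _))
      (fun t ht => (Prod.mk.inj (mem_filter.1 ht).2).2)
      (av_const μ fun t ht => (Prod.mk.inj (mem_filter.1 ht).2).1)
      (fun t ht => (mem_filter.1 (mem_filter.1 ht).1).2.2) ?_).le
    refine card_le_one.2 fun a ha b hb => ?_
    obtain ⟨t, ht, rfl⟩ := mem_image.1 ha
    obtain ⟨t', ht', rfl⟩ := mem_image.1 hb
    exact (Prod.mk.inj (mem_filter.1 ht).2).1.trans (Prod.mk.inj (mem_filter.1 ht').2).1.symm
  have s4 : range (l * l) ⊆ ((range (l * l)).filter fun t => t / l ∈ V) ∪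
      (((range (l * l)).filter fun t => σ t ∈ U) ∪
        (range (l * l)).filter fun t => t / l ∉ V ∧ σ t ∉ U) := by
    intro t ht
    simp only [mem_union, mem_filter, ht, true_and]
    tauto
  have s5 := (card_le_card s4).trans ((card_union_le _ _).trans
    (Nat.add_le_add s1 ((card_union_le _ _).trans (Nat.add_le_add s2 s3))))
  rw [card_range] at s5
  have s6 : k * l * U.card ≤ k * l * V.card := Nat.mul_le_mul_left _ (by omega)
  have s7 : 2 * (k + 1) * V.card ≤ l :=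
    Nat.le_of_mul_le_mul_left (c := k) (by linarith) hk
  have s8 := Nat.mul_le_mul_left l s7
  nlinarith

theorem seq (μ : Bool) {k : ℕ} (hk : 0 < k) : ∃ l0, ∀ l, l0 ≤ l → ∀ σ : ℕ → ℕ,
    ∃ T ⊆ range (l * l), Av μ σ T ∧ k * l < T.card := by
  classical
  obtain ⟨w, hw⟩ : ∃ w, w = 2 * k * (k + 1) := ⟨_, rfl⟩
  have w0 : 0 < w := by rw [hw]; positivity
  obtain ⟨n, hn, M, m1, m2⟩ := gadget (128 * w * w * k * k * k)
  obtain ⟨W, hW⟩ : ∃ W, W = 16 * w * k * n := ⟨_, rfl⟩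
  have W0 : 0 < W := by rw [hW]; positivity
  obtain ⟨R, hR⟩ := window μ hn m2 W
  refine ⟨8 * w * (R + 2 * n * k) + 1, fun l hl σ => ?_⟩
  by_contra hh
  have hG : ∀ T ⊆ range (l * l), Av μ σ T → T.card ≤ k * l := fun T a b =>
    not_lt.1 fun c => hh ⟨T, a, b, c⟩
  have l0 : 0 < l := by omega
  have d := dense μ σ l0 hk hG
  rw [← hw] at d
  have hL : ((range (l * l)).image σ).card ≤ k * l := by
    obtain ⟨S, h1, h2, h3⟩ := exists_subset_injOn_image_eq_of_surjOn (f := σ)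
      (range (l * l) : Set ℕ) ((range (l * l)).image σ) (by simp [Set.SurjOn])
    rw [← h3, card_image_of_injOn h2]
    refine hG S (coe_subset.1 h1) fun t1 a1 t2 _ t3 a3 t4 a4 t5 _ l1 l2 l3 _ hR => ?_
    rcases hR with h | h
    · have := h2 a4 a1 h.2.2.1
      omega
    · have := h2 a3 a1 h.2.2.1
      omega
  set L := (range (l * l)).image σ
  have hI : ∀ z ∈ inc σ l, z.1 ∈ L ∧ z.2 < l ∧ ∃ t, t < l * l ∧ σ t = z.1 ∧ t / l = z.2 :=
    fun z hz => by
      obtain ⟨t, ht, rfl⟩ := mem_image.1 hz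
      exact ⟨mem_image_of_mem _ ht, Nat.div_lt_of_lt_mul (mem_range.1 ht), t, mem_range.1 ht, rfl,
        rfl⟩
  have hjW : ∀ j, j < l → j / W ∈ range (l / W + 1) := fun j hj =>
    mem_range.2 (Nat.lt_succ_of_le (Nat.div_le_div_right hj.le))
  obtain ⟨V, -, U, T, t1, t2, -, t4, t5, t6⟩ := greedy μ σ (fun t => t / l / W)
    (fun _ _ h => Nat.div_le_div_right (Nat.div_le_div_right h)) (l * l) n
    (128 * w * w * k * k * k * n) (range (l / W + 1))
  have a1 := t4.trans (hG T t1 t2)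
  let oc : ℕ → ℕ → ℕ := fun v x => (occ σ (· / l) (l * l) W v x).card
  let H : ℕ → Finset ℕ := fun v => L.filter fun x => x ∉ U ∧ 2 * n ≤ oc v x
  have hH : ∀ v ∈ range (l / W + 1), v ∉ V → (H v).card ≤ R := fun v b1 b2 => by
    by_contra hc
    obtain ⟨S, s1, s2, s3, s4, s5, s6⟩ := hR σ (· / l) (l * l) v (H v)
      (fun _ _ h => Nat.div_le_div_right h) (not_le.1 hc).le fun x hx => (mem_filter.1 hx).2.2
    exact absurd (t6 v b1 b2 S s1 s2 s3 (fun t ht => (mem_filter.1 (s4 t ht)).2.1) s5)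
      (not_lt.2 (m1.trans s6))
  have sA : ((inc σ l).filter fun z => z.2 / W ∈ V).card ≤ k * l * (W * V.card) := by
    refine le_trans (card_le_card (t := L ×ˢ (range l).filter fun j => j / W ∈ V) fun z hz => ?_) ?_
    · obtain ⟨z1, z2⟩ := mem_filter.1 hz
      exact mem_product.2 ⟨(hI z z1).1, mem_filter.2 ⟨mem_range.2 (hI z z1).2.1, z2⟩⟩
    · rw [card_product]
      exact Nat.mul_le_mul hL (card_div_le _ V W0)
  have sB : ((inc σ l).filter fun z => z.1 ∈ U).card ≤ U.card * l := by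
    refine le_trans (card_le_card (t := U ×ˢ range l) fun z hz => ?_) (by simp)
    obtain ⟨z1, z2⟩ := mem_filter.1 hz
    exact mem_product.2 ⟨z2, mem_range.2 (hI z z1).2.1⟩
  have sC : ((inc σ l).filter fun z => z.2 / W ∉ V ∧ z.1 ∈ H (z.2 / W)).card ≤
      R * (range l).card := by
    refine card_le_mul_card_image_of_maps_to (f := Prod.snd)
      (fun z hz => mem_range.2 (hI z (mem_filter.1 hz).1).2.1) _ fun j hj => ?_
    by_cases hv : j / W ∈ V
    · rw [filter_eq_empty_iff.2 fun z hz e => (mem_filter.1 hz).2.1 (e ▸ hv)]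
      simp
    refine le_trans (card_le_card_of_injOn Prod.fst (fun z hz => ?_) fun z hz z' hz' e => ?_)
      (hH _ (hjW j (mem_range.1 hj)) hv)
    · obtain ⟨z1, rfl⟩ := mem_filter.1 (mem_coe.1 hz)
      exact (mem_filter.1 z1).2.2
    · exact Prod.ext e ((mem_filter.1 (mem_coe.1 hz)).2.trans (mem_filter.1 (mem_coe.1 hz')).2.symm)
  have sD : ((inc σ l).filter fun z => oc (z.2 / W) z.1 < 2 * n).card ≤
      2 * n * (L ×ˢ range (l / W + 1)).card := by
    refine card_le_mul_card_image_of_maps_to (f := fun z => (z.1, z.2 / W))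
      (fun z hz => mem_product.2 ⟨(hI z (mem_filter.1 hz).1).1,
        hjW _ (hI z (mem_filter.1 hz).1).2.1⟩) _ ?_
    rintro ⟨x, v⟩ -
    by_cases hv : oc v x < 2 * n
    · refine le_trans (card_le_card_of_injOn (fun z => (⟨z.2 % W, Nat.mod_lt _ W0⟩ : Fin W))
        (fun z hz => ?_) fun z hz z' hz' e => ?_) hv.le
      · obtain ⟨z1, z2⟩ := mem_filter.1 (mem_coe.1 hz)
        obtain ⟨rfl, rfl⟩ := Prod.mk.inj z2
        obtain ⟨t, b1, b2, b3⟩ := (hI z (mem_filter.1 z1).1).2.2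
        exact mem_coe.2 (mem_occ.2 ⟨t, b1, b2, b3.trans (Nat.div_add_mod' _ _).symm⟩)
      · obtain ⟨b1, b2⟩ := Prod.mk.inj (mem_filter.1 (mem_coe.1 hz)).2
        obtain ⟨b3, b4⟩ := Prod.mk.inj (mem_filter.1 (mem_coe.1 hz')).2
        have e' : z.2 % W = z'.2 % W := congrArg Fin.val e
        refine Prod.ext (b1.trans b3.symm) ?_
        rw [← Nat.div_add_mod z.2 W, ← Nat.div_add_mod z'.2 W, b2, b4, e']
    · rw [filter_eq_empty_iff.2 fun z hz e => hv (by
        obtain ⟨rfl, rfl⟩ := Prod.mk.inj e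
        exact (mem_filter.1 hz).2)]
      simp
  have s4 : inc σ l ⊆ ((inc σ l).filter fun z => z.2 / W ∈ V) ∪
      (((inc σ l).filter fun z => z.1 ∈ U) ∪
        (((inc σ l).filter fun z => z.2 / W ∉ V ∧ z.1 ∈ H (z.2 / W)) ∪
          (inc σ l).filter fun z => oc (z.2 / W) z.1 < 2 * n)) := by
    intro z hz
    simp only [mem_union, mem_filter, hz, true_and, H, (hI z hz).1, ← not_le]
    tauto
  have s5 := (card_le_card s4).trans ((card_union_le _ _).trans
    (Nat.add_le_add sA ((card_union_le _ _).trans (Nat.add_le_add sB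
      ((card_union_le _ _).trans (Nat.add_le_add sC sD))))))
  rw [card_product, card_range, card_range] at s5
  have s6 : 2 * n * (L.card * (l / W + 1)) ≤ 2 * n * (k * l * (l / W + 1)) := by gcongr
  have s7 : l ≤ 2 * w * (k * W * V.card + U.card + R + 2 * n * k * (l / W + 1)) := by
    refine Nat.le_of_mul_le_mul_left (c := l) (d.trans ?_) l0
    have := Nat.mul_le_mul_left (2 * w) (s5.trans (Nat.add_le_add_left (Nat.add_le_add_left
      (Nat.add_le_add_left s6 _) _) _))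
    linarith
  have s8 : 128 * w * w * k * k * (n * V.card) ≤ l :=
    Nat.le_of_mul_le_mul_left (c := k) (by linarith) hk
  have s9 : 8 * w * U.card ≤ l := by
    refine le_trans (Nat.mul_le_mul ?_ t5) s8
    have : 8 * w * 1 ≤ 8 * w * (16 * w * k * k) :=
      Nat.mul_le_mul_left _ (Nat.succ_le_of_lt (by positivity))
    linarith
  have s10 : 16 * w * k * n * (l / W) ≤ l := hW ▸ Nat.mul_div_le l W
  generalize l / W = D at s7 s10
  subst hW
  linarith

end Pool.Agent.Lib.MP_f2a48e_co.Cl
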