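import Pool.Agent.Lib.MP_f2a48e_co.K2
import Pool.Agent.Lib.MP_f2a48e_co.K3
import Pool.Agent.Lib.MP_f2a48e_co.K5

/-! From sequences to matrices, and the classification. -/

set_option autoImplicit false

namespace Pool.Agent.Lib.MP_f2a48e_co.Cl

open Finset

variable {a b r s : ℕ}

/-- `P` contains one of the words of length five -/
def Has5 (μ : Bool) (P : Matrix (Fin r) (Fin s) Bool) : Prop :=
  ∃ (i1 i2 i3 i4 i5 : Fin r) (j1 j2 j3 j4 j5 : Fin s), j1 < j2 ∧ j2 < j3 ∧ j3 < j4 ∧ j4 < j5 ∧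
    P i1 j1 = true ∧ P i2 j2 = true ∧ P i3 j3 = true ∧ P i4 j4 = true ∧ P i5 j5 = true ∧
    Rl μ i1 i2 i3 i4 i5

theorem LSM_ge {μ : Bool} {P : Matrix (Fin r) (Fin s) Bool} (hP : Has5 μ P)
    (A : Matrix (Fin a) (Fin b) Bool) : ∃ σ : ℕ → ℕ, ∀ T ⊆ range (ones A), Av μ σ T →
      T.card ≤ LSM A P := by
  classical
  let S : Finset (Fin b ×ₗ Fin a) := (pts A).image fun p => toLex (p.2, p.1)
  have hS : S.card = ones A := card_image_of_injective _ fun p q h =>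
    Prod.ext (Prod.mk.inj (toLex.injective h)).2 (Prod.mk.inj (toLex.injective h)).1
  let e : Fin (ones A) → Fin a × Fin b := fun t => (ofLex (S.orderEmbOfFin hS t)).swap
  have e1 : ∀ t, e t ∈ pts A := fun t => by
    obtain ⟨p, hp, h⟩ := mem_image.1 (S.orderEmbOfFin_mem hS t)
    simpa [e, ← h] using hp
  have e2 : Function.Injective e := fun t t' h =>
    (S.orderEmbOfFin hS).injective (ofLex.injective (Prod.swap_injective h))
  have e3 : ∀ t t', (e t).2 < (e t').2 → t.1 < t'.1 := fun t t' h =>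
    (S.orderEmbOfFin hS).lt_iff_lt.1 (Prod.Lex.lt_iff.2 (Or.inl h))
  refine ⟨fun t => if h : t < ones A then (e ⟨t, h⟩).1 else 0, fun T hT hav => ?_⟩
  have c1 : T.card = ((univ.filter fun t : Fin (ones A) => t.1 ∈ T).image e).card := by
    rw [card_image_of_injective _ e2]
    refine (card_bij (fun t _ => t.1) (fun t ht => (mem_filter.1 ht).2)
      (fun _ _ _ _ h => Fin.ext h) fun t ht => ?_).symm
    exact ⟨⟨t, mem_range.1 (hT ht)⟩, by simpa using ht, rfl⟩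
  rw [c1]
  refine le_LSM A _ (image_subset_iff.2 fun t _ => e1 t) ?_
  rintro ⟨f, g, hf, hg, h⟩
  have k : ∀ i j, P i j = true → ∃ t : Fin (ones A), t.1 ∈ T ∧ (e t).1 = f i ∧ (e t).2 = g j :=
    fun i j hij => by
      obtain ⟨t, ht, h'⟩ := mem_image.1 (mat_iff.1 (h i j hij))
      exact ⟨t, (mem_filter.1 ht).2, congrArg Prod.fst h', congrArg Prod.snd h'⟩
  obtain ⟨i1, i2, i3, i4, i5, j1, j2, j3, j4, j5, l1, l2, l3, l4, p1, p2, p3, p4, p5, hR⟩ := hP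
  obtain ⟨t1, m1, a1, b1⟩ := k _ _ p1
  obtain ⟨t2, m2, a2, b2⟩ := k _ _ p2
  obtain ⟨t3, m3, a3, b3⟩ := k _ _ p3
  obtain ⟨t4, m4, a4, b4⟩ := k _ _ p4
  obtain ⟨t5, m5, a5, b5⟩ := k _ _ p5
  refine hav _ m1 _ m2 _ m3 _ m4 _ m5 (e3 _ _ (b1 ▸ b2 ▸ hg l1)) (e3 _ _ (b2 ▸ b3 ▸ hg l2))
    (e3 _ _ (b3 ▸ b4 ▸ hg l3)) (e3 _ _ (b4 ▸ b5 ▸ hg l4)) ?_
  simp only [Fin.is_lt, dif_pos, Fin.eta, a1, a2, a3, a4, a5]
  simpa only [Rl, Fin.val_fin_lt, Fin.val_inj, ne_eq, hf.lt_iff_lt, hf.injective.eq_iff] using hR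

theorem big_of_has5 {μ : Bool} {P : Matrix (Fin r) (Fin s) Bool} (hP : Has5 μ P) : Big P := by
  intro K
  obtain ⟨l0, h0⟩ := seq μ (k := 2 * K + 1) (by omega)
  refine ⟨(l0 + 1) * (l0 + 1), fun m hm => ?_⟩
  obtain ⟨a, b, A, rfl, e⟩ := sm_attained m P
  obtain ⟨σ, hσ⟩ := LSM_ge hP A
  have h1 : l0 + 1 ≤ Nat.sqrt (ones A) := Nat.le_sqrt.2 hm
  obtain ⟨T, t1, t2, t3⟩ := h0 (Nat.sqrt (ones A)) (by omega) σ
  have h2 := t3.trans_le (hσ T (t1.trans (range_subset_range.2 (Nat.sqrt_le _))) t2)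
  have h3 := Nat.lt_succ_sqrt (ones A)
  rw [← e]
  generalize Nat.sqrt (ones A) = l at h1 h2 h3
  have h4 : K * l.succ ≤ LSM A P := by
    have : K * l.succ ≤ K * (2 * l) := Nat.mul_le_mul_left _ (by omega)
    nlinarith
  calc K * K * ones A ≤ K * K * (l.succ * l.succ) := Nat.mul_le_mul_left _ h3.le
    _ = K * l.succ * (K * l.succ) := by ring
    _ ≤ _ := Nat.mul_le_mul h4 h4

/-- `P` contains the word `b a b a` -/
def Alt (P : Matrix (Fin 2) (Fin s) Bool) : Prop :=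
  ∃ j1 j2 j3 j4 : Fin s, j1 < j2 ∧ j2 < j3 ∧ j3 < j4 ∧
    P 1 j1 = true ∧ P 0 j2 = true ∧ P 1 j3 = true ∧ P 0 j4 = true

theorem form_of_alt {P : Matrix (Fin 2) (Fin s) Bool} (hc : ∀ j, P 0 j = true ↔ ¬ P 1 j = true)
    (h : Alt P) (hb : ¬ Big P) : Form 1 P := by
  obtain ⟨j1, j2, j3, j4, l1, l2, l3, p1, p2, p3, p4⟩ := h
  have n1 : ¬ Has5 true P := fun h => hb (big_of_has5 h)
  have n2 : ¬ Has5 false P := fun h => hb (big_of_has5 h)
  have k1 : ∀ j, j < j2 → P 1 j = true := fun j hj => by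
    by_contra hh
    have p0 := (hc j).2 hh
    rcases lt_trichotomy j j1 with h | rfl | h
    · exact n2 ⟨0, 1, 0, 1, 0, j, j1, j2, j3, j4, h, l1, l2, l3, p0, p1, p2, p3, p4, by simp [Rl]⟩
    · exact hh p1
    · exact n1 ⟨1, 0, 0, 1, 0, j1, j, j2, j3, j4, h, hj, l2, l3, p1, p0, p2, p3, p4, by simp [Rl]⟩
  have k2 : ∀ j, j2 < j → j < j3 → False := fun j h h' => by
    by_cases hh : P 1 j = true
    · exact n1 ⟨1, 0, 1, 1, 0, j1, j2, j, j3, j4, l1, h, h', l3, p1, p2, hh, p3, p4, by simp [Rl]⟩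
    · exact n1 ⟨1, 0, 0, 1, 0, j1, j2, j, j3, j4, l1, h, h', l3, p1, p2, (hc j).2 hh, p3, p4,
        by simp [Rl]⟩
  have k3 : ∀ j, j3 < j → ¬ P 1 j = true := fun j hj hh => by
    rcases lt_trichotomy j j4 with h | rfl | h
    · exact n1 ⟨1, 0, 1, 1, 0, j1, j2, j3, j, j4, l1, l2, hj, h, p1, p2, p3, hh, p4, by simp [Rl]⟩
    · exact (hc _).1 p4 hh
    · exact n2 ⟨1, 0, 1, 0, 1, j1, j2, j3, j4, j, l1, l2, l3, h, p1, p2, p3, p4, hh, by simp [Rl]⟩
  have l1' : j1.1 < j2.1 := l1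
  have l2' : j2.1 < j3.1 := l2
  have l3' : j3.1 < j4.1 := l3
  have l4' := j4.2
  have k4 : j3.1 = j2.1 + 1 := by
    by_contra hh
    exact k2 ⟨j2.1 + 1, by omega⟩ (show j2.1 < j2.1 + 1 by omega) (show j2.1 + 1 < j3.1 by omega)
  have k5 : ∀ j, P 1 j = true ↔ (j.1 < j2.1 ∨ j.1 = j2.1 + 1) := fun j => by
    constructor
    · intro hj
      by_contra hh
      rcases eq_or_ne j j2 with rfl | h
      · exact (hc _).1 p2 hj
      · exact k3 j (show j3.1 < j.1 by have := Fin.val_ne_of_ne h; omega) hj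
    · rintro (h | h)
      · exact k1 j h
      · rwa [show j = j3 from Fin.ext (by omega)]
  refine ⟨j2.1, by omega, by omega, fun x j => ?_⟩
  fin_cases x
  · simpa [hc] using (k5 j).not
  · simpa using k5 j

theorem lin_of_not_alt {P : Matrix (Fin 2) (Fin s) Bool}
    (hc : ∀ j, P 0 j = true ↔ ¬ P 1 j = true) (h : ¬ Alt (flip P))
    (h0 : ∀ j : Fin s, j.1 = 0 → P 0 j = true) : ¬ SupLin P := by
  classical
  have e1 : ∃ i, ∀ j : Fin s, j.1 = i → P 1 j = true := ⟨s, fun j hj => absurd hj j.2.ne⟩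
  have e2 : ∃ l, Nat.find e1 ≤ l ∧ ∀ j : Fin s, j.1 = l → P 0 j = true :=
    ⟨s + Nat.find e1, by omega, fun j hj => absurd hj (by have := j.2; omega)⟩
  refine not_supLin (three_runs (i := Nat.find e1) (l := Nat.find e2) (fun j hj => ?_) fun j hj => ?_)
  · by_contra hh
    exact Nat.find_min e2 (m := j.1) (by omega) ⟨by omega, fun j' e => Fin.ext e ▸ hj⟩
  · have a1 : Nat.find e1 ≤ j.1 := Nat.find_min' e1 fun j' e => Fin.ext e ▸ hj
    refine ⟨a1, not_le.1 fun a2 => h ?_⟩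
    have b1 := Nat.find_spec e1
    obtain ⟨b2, b3⟩ := Nat.find_spec e2
    have := j.2
    have c1 := b1 ⟨Nat.find e1, by omega⟩ rfl
    have c2 := b3 ⟨Nat.find e2, by omega⟩ rfl
    have c0 := h0 ⟨0, by omega⟩ rfl
    refine ⟨⟨0, by omega⟩, ⟨Nat.find e1, by omega⟩, ⟨Nat.find e2, by omega⟩, j, ?_, ?_, ?_, c0, c1,
      c2, hj⟩
    · exact lt_of_le_of_ne (Nat.zero_le _) fun e => (hc _).1 c0 (e ▸ c1)
    · exact lt_of_le_of_ne b2 fun e => (hc _).1 c2 (e ▸ c1)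
    · exact lt_of_le_of_ne a2 fun e => (hc _).1 c2 (by rw [e]; exact hj)

theorem supLin_flip {P : Matrix (Fin r) (Fin s) Bool} (h : SupLin P) : SupLin (flip P) := by
  simpa only [SupLin, ex_flip] using h

theorem big_flip {P : Matrix (Fin r) (Fin s) Bool} : Big (flip P) ↔ Big P := by
  simp only [Big, sm_flip]

theorem form_of {P : Matrix (Fin 2) (Fin s) Bool} (hP : ∀ j, ∃ i, P i j = true) (hs : SupLin P)
    (hb : ¬ Big P) : ∃ r, Form r P := by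
  by_cases h : ∃ j, P 0 j = true ∧ P 1 j = true
  · obtain ⟨j, p0, p1⟩ := h
    have p : ∀ i, P i j = true := fun i => by fin_cases i <;> assumption
    by_cases h1 : s ≤ 1
    · exact (not_supLin (one_col h1) hs).elim
    have : Nontrivial (Fin s) := Fin.nontrivial_iff_two_le.2 (by omega)
    obtain ⟨j', hj⟩ := exists_ne j
    obtain ⟨i, hi⟩ := hP j'
    exact (hb (big_of_heavy (fun i => ⟨j, p i⟩) hP ⟨i, j', j, hj, hi, p i⟩
      ⟨0, 1, j, by decide, p0, p1⟩ hs)).elim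
  have hc : ∀ j, P 0 j = true ↔ ¬ P 1 j = true := fun j => by
    refine ⟨fun a b => h ⟨j, a, b⟩, fun a => ?_⟩
    obtain ⟨i, hi⟩ := hP j
    fin_cases i
    · exact hi
    · exact (a hi).elim
  have hc' : ∀ j, flip P 0 j = true ↔ ¬ flip P 1 j = true := fun j =>
    show P 1 j = true ↔ ¬ P 0 j = true by rw [hc, not_not]
  by_cases a1 : Alt P
  · exact ⟨1, form_of_alt hc a1 hb⟩
  by_cases a2 : Alt (flip P)
  · exact ⟨_, flip_flip P ▸ form_flip (form_of_alt hc' a2 (big_flip.not.2 hb))⟩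
  by_cases h0 : ∀ j : Fin s, j.1 = 0 → P 0 j = true
  · exact (lin_of_not_alt hc a2 h0 hs).elim
  refine (lin_of_not_alt hc' (by rwa [flip_flip]) (fun j hj => ?_) (supLin_flip hs)).elim
  by_contra hh
  exact h0 fun j' hj' => Fin.ext (hj.trans hj'.symm) ▸ (hc j).2 hh

theorem classification (P : Matrix (Fin 2) (Fin s) Bool) (hP : ∀ j, ∃ i, P i j = true) :
    (Filter.Tendsto (fun n : ℕ => (ex n P : ℝ) / n) Filter.atTop Filter.atTop ∧
      ∃ c₁ c₂ : ℝ, 0 < c₁ ∧ 0 < c₂ ∧ ∀ᶠ m : ℕ in Filter.atTop,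
        c₁ * √(m : ℝ) ≤ sm m P ∧ (sm m P : ℝ) ≤ c₂ * √(m : ℝ)) ↔ ∃ r, Form r P := by
  constructor
  · rintro ⟨h1, c₁, c₂, -, -, h2⟩
    exact form_of hP (supLin_of h1) (not_big (h2.mono fun _ h => h.2))
  · rintro ⟨r, h⟩
    fin_cases r
    · simpa only [ex_flip, sm_flip] using form_good (form_flip h)
    · exact form_good h

end Pool.Agent.Lib.MP_f2a48e_co.Cl
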