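import Pool.Agent.Lib.MP_f2a48e_co.Defs
import Pool.Agent.Lib.MP_f2a48e_co.Cfg

set_option autoImplicit false
set_option linter.unusedSectionVars false

namespace Pool.Agent.Lib.MP_f2a48e_co

open Finset

theorem contains_iff {a b : ℕ} (A : Matrix (Fin a) (Fin b) Bool) :
    Contains A P₀ ↔ ∃ (x x' : Fin a) (y1 y2 y3 y4 : Fin b), x < x' ∧ y1 < y2 ∧ y2 < y3 ∧ y3 < y4 ∧
      A x' y1 = true ∧ A x y2 = true ∧ A x' y3 = true ∧ A x y4 = true := by
  constructor
  · rintro ⟨f, g, hf, hg, h⟩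
    exact ⟨f 0, f 1, g 0, g 1, g 2, g 3, hf (by decide), hg (by decide), hg (by decide),
      hg (by decide), h 1 0 (by decide), h 0 1 (by decide), h 1 2 (by decide), h 0 3 (by decide)⟩
  · rintro ⟨x, x', y1, y2, y3, y4, hx, h1, h2, h3, a1, a2, a3, a4⟩
    refine ⟨![x, x'], ![y1, y2, y3, y4], ?_, ?_, ?_⟩
    · refine Fin.strictMono_iff_lt_succ.2 ?_
      intro i
      fin_cases i
      simpa using hx
    · refine Fin.strictMono_iff_lt_succ.2 ?_
      intro i
      fin_cases i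
      · simpa using h1
      · simpa using h2
      · simpa using h3
    · intro i j h
      fin_cases i <;> fin_cases j <;> simp_all [P₀]

theorem ones_le {a b : ℕ} (A : Matrix (Fin a) (Fin b) Bool) : ones A ≤ a * b := by
  unfold ones
  refine (card_filter_le _ _).trans ?_
  simp

theorem le_ex {n : ℕ} (A : Matrix (Fin n) (Fin n) Bool) (h : ¬ Contains A P₀) :
    ones A ≤ ex n P₀ := by
  refine le_csSup ⟨n * n, ?_⟩ ⟨A, h, rfl⟩
  rintro k ⟨B, _, rfl⟩
  exact ones_le B

theorem le_LSM {a b : ℕ} (A B : Matrix (Fin a) (Fin b) Bool)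
    (hs : ∀ i j, B i j = true → A i j = true) (h : ¬ Contains B P₀) :
    ones B ≤ LSM A P₀ := by
  refine le_csSup ⟨a * b, ?_⟩ ⟨B, hs, h, rfl⟩
  rintro k ⟨B, _, _, rfl⟩
  exact ones_le B

theorem LSM_le {a b : ℕ} (A : Matrix (Fin a) (Fin b) Bool) (K : ℕ)
    (h : ∀ B : Matrix (Fin a) (Fin b) Bool, (∀ i j, B i j = true → A i j = true) →
      ¬ Contains B P₀ → ones B ≤ K) : LSM A P₀ ≤ K := by
  refine csSup_le' ?_
  rintro k ⟨B, h1, h2, rfl⟩
  exact h B h1 h2

def rk {α : Type} [LinearOrder α] (s : Finset α) (c : α) : ℕ := (s.filter (· < c)).card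

theorem rk_mono {α : Type} [LinearOrder α] (s : Finset α) : Monotone (rk s) := by
  intro a b h
  refine card_le_card ?_
  intro x hx
  simp only [mem_filter] at hx ⊢
  exact ⟨hx.1, hx.2.trans_le h⟩

theorem rk_lt {α : Type} [LinearOrder α] (s : Finset α) {a b : α} (ha : a ∈ s) (h : a < b) :
    rk s a < rk s b := by
  refine card_lt_card ⟨?_, ?_⟩
  · intro x hx
    simp only [mem_filter] at hx ⊢
    exact ⟨hx.1, hx.2.trans h⟩
  · intro hh
    have : a ∈ s.filter (· < a) := hh (mem_filter.2 ⟨ha, h⟩)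
    simp at this

theorem rk_lt_card {α : Type} [LinearOrder α] (s : Finset α) {a : α} (ha : a ∈ s) :
    rk s a < s.card := by
  refine card_lt_card ⟨filter_subset _ _, ?_⟩
  intro hh
  have : a ∈ s.filter (· < a) := hh ha
  simp at this

theorem rk_inj {α : Type} [LinearOrder α] (s : Finset α) {a b : α} (ha : a ∈ s) (hb : b ∈ s)
    (h : rk s a = rk s b) : a = b := by
  rcases lt_trichotomy a b with h' | h' | h'
  · exact absurd h (rk_lt s ha h').ne
  · exact h'
  · exact absurd h (rk_lt s hb h').ne'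

theorem lt_of_rk {α : Type} [LinearOrder α] (s : Finset α) {a b : α} (h : rk s a < rk s b) :
    a < b := by
  by_contra hh
  exact absurd (rk_mono s (not_lt.1 hh)) (not_le.2 h)

theorem ex_ge {R C : Type} [LinearOrder R] [LinearOrder C] [Fintype R] (one : R → Finset C)
    (cols : Finset C) (hsub : ∀ r, one r ⊆ cols) (i : ℕ) (hc : ∀ r, (one r).card = i)
    (av : ∀ r r', r < r' → ∀ x1 x2 x3 x4, x1 < x2 → x2 < x3 → x3 < x4 →
      x1 ∈ one r' → x2 ∈ one r → x3 ∈ one r' → x4 ∈ one r → False)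
    (n : ℕ) (h1 : Fintype.card R ≤ n) (h2 : cols.card ≤ n) :
    Fintype.card R * i ≤ ex n P₀ := by
  classical
  let A : Matrix (Fin n) (Fin n) Bool := fun x y =>
    decide (∃ r, ∃ c ∈ one r, rk univ r = x.1 ∧ rk cols c = y.1)
  have hA : ∀ x y, A x y = true ↔ ∃ r, ∃ c ∈ one r, rk univ r = x.1 ∧ rk cols c = y.1 := by
    intro x y; simp [A]
  refine le_trans ?_ (le_ex A ?_)
  · have hcard : (univ.sigma one).card = Fintype.card R * i := by
      rw [card_sigma]; simp [hc]
    rw [← hcard]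
    unfold ones
    have hr : ∀ r : R, rk univ r < n := fun r =>
      (rk_lt_card univ (mem_univ r)).trans_le (by simpa using h1)
    rcases Nat.eq_zero_or_pos n with hn | hn
    · have : IsEmpty R := ⟨fun r => by have := hr r; omega⟩
      simp
    refine card_le_card_of_injOn
      (fun q => (⟨rk univ q.1, hr q.1⟩, ⟨rk cols q.2 % n, Nat.mod_lt _ hn⟩)) ?_ ?_
    · rintro ⟨r, c⟩ hq
      simp only [coe_sigma, Set.mem_sigma_iff, mem_coe] at hq
      simp only [coe_filter, mem_univ, true_and, Set.mem_ofPred_eq]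
      refine (hA _ _).2 ⟨r, c, hq.2, rfl, ?_⟩
      exact (Nat.mod_eq_of_lt ((rk_lt_card cols (hsub r hq.2)).trans_le h2)).symm
    · rintro ⟨r, c⟩ hq ⟨r', c'⟩ hq' h
      simp only [coe_sigma, Set.mem_sigma_iff, mem_coe] at hq hq'
      simp only [Prod.mk.injEq, Fin.mk.injEq] at h
      obtain ⟨e1, e2⟩ := h
      have e1' := rk_inj univ (mem_univ _) (mem_univ _) e1
      subst e1'
      rw [Nat.mod_eq_of_lt ((rk_lt_card cols (hsub r hq.2)).trans_le h2),
        Nat.mod_eq_of_lt ((rk_lt_card cols (hsub r hq'.2)).trans_le h2)] at e2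
      have e2' := rk_inj cols (hsub r hq.2) (hsub r hq'.2) e2
      subst e2'
      rfl
  · rw [contains_iff]
    rintro ⟨x, x', y1, y2, y3, y4, hx, k1, k2, k3, a1, a2, a3, a4⟩
    obtain ⟨r1, c1, m1, p1, q1⟩ := (hA _ _).1 a1
    obtain ⟨r2, c2, m2, p2, q2⟩ := (hA _ _).1 a2
    obtain ⟨r3, c3, m3, p3, q3⟩ := (hA _ _).1 a3
    obtain ⟨r4, c4, m4, p4, q4⟩ := (hA _ _).1 a4
    have e13 : r3 = r1 := rk_inj univ (mem_univ _) (mem_univ _) (p3.trans p1.symm)
    have e24 : r4 = r2 := rk_inj univ (mem_univ _) (mem_univ _) (p4.trans p2.symm)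
    subst e13 e24
    refine av r4 r3 (lt_of_rk univ ?_) c1 c2 c3 c4 (lt_of_rk cols ?_) (lt_of_rk cols ?_)
      (lt_of_rk cols ?_) m1 m2 m3 m4
    · rw [p1, p2]; exact hx
    · rw [q1, q2]; exact k1
    · rw [q2, q3]; exact k2
    · rw [q3, q4]; exact k3

theorem ex_big (i : ℕ) : ∃ n0 : ℕ, 0 < n0 ∧ ∀ n : ℕ, n / n0 * n0 * (i + 1) ≤ ex n P₀ := by
  classical
  obtain ⟨L, C, _, _, _, emb, one, cols, g⟩ := ex_all i 2
  have hcnt := g.cnt
  refine ⟨Fintype.card L * 2, by omega, fun n => ?_⟩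
  set q := n / (Fintype.card L * 2) with hq
  have hqn : q * (Fintype.card L * 2) ≤ n := Nat.div_mul_le_self _ _
  have hR : Fintype.card (Fin q ×ₗ (L ×ₗ Fin 2)) = q * (Fintype.card L * 2) := by
    rw [Fintype.card_lex, Fintype.card_prod, Fintype.card_lex, Fintype.card_prod]
    simp
  rw [← hR]
  refine ex_ge (R := Fin q ×ₗ (L ×ₗ Fin 2)) (C := Fin q ×ₗ C)
    (fun p => (one (ofLex (ofLex p).2).1 (ofLex (ofLex p).2).2).image
      (fun c => toLex ((ofLex p).1, c)))
    ((univ ×ˢ cols).image toLex) ?_ (i + 1) ?_ ?_ n (by rw [hR]; exact hqn) ?_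
  · rintro ⟨k, l, r⟩ x hx
    obtain ⟨c, hc, rfl⟩ := mem_image.1 hx
    exact mem_image.2 ⟨(k, c), mem_product.2 ⟨mem_univ _, g.sub _ _ hc⟩, rfl⟩
  · rintro ⟨k, l, r⟩
    rw [card_image_of_injective _ (fun a b h => by simpa using h), g.card]
  · rintro ⟨k, l, r⟩ ⟨k', l', r'⟩ hlt x1 x2 x3 x4 h1 h2 h3 m1 m2 m3 m4
    obtain ⟨c1, hc1, rfl⟩ := mem_image.1 m1
    obtain ⟨c2, hc2, rfl⟩ := mem_image.1 m2
    obtain ⟨c3, hc3, rfl⟩ := mem_image.1 m3
    obtain ⟨c4, hc4, rfl⟩ := mem_image.1 m4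
    have h1' : k' < k ∨ (k' = k ∧ c1 < c2) := Prod.Lex.toLex_lt_toLex.1 h1
    have h2' : k < k' ∨ (k = k' ∧ c2 < c3) := Prod.Lex.toLex_lt_toLex.1 h2
    have h3' : k' < k ∨ (k' = k ∧ c3 < c4) := Prod.Lex.toLex_lt_toLex.1 h3
    have hlt' : k < k' ∨ (k = k' ∧ toLex (l, r) < toLex (l', r')) :=
      Prod.Lex.toLex_lt_toLex.1 hlt
    have hk : k = k' := by
      rcases h1' with h | h <;> rcases h2' with h' | h'
      · exact absurd h (lt_asymm h')
      · exact h'.1
      · exact h.1.symm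
      · exact h'.1
    subst hk
    simp only [lt_self_iff_false, true_and, false_or] at h1' h2' h3' hlt'
    rcases Prod.Lex.toLex_lt_toLex.1 hlt' with h | ⟨h, h'⟩
    · exact g.av1 l r l' r' h c1 c2 c3 c4 h1' h2' h3' hc1 hc2 hc3 hc4
    · have h0 : l = l' := h
      subst h0
      exact g.av2 l r r' h' c3 c4 ((g.le _ _ _ hc1).trans_lt (h1'.trans h2')) h3' hc3 hc4
  · refine card_image_le.trans ?_
    rw [card_product, card_univ, Fintype.card_fin]
    refine le_trans (Nat.mul_le_mul_left _ ?_) hqn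
    omega

theorem ex_superlinear :
    Filter.Tendsto (fun n : ℕ => (ex n P₀ : ℝ) / n) Filter.atTop Filter.atTop := by
  refine Filter.tendsto_atTop.2 fun b => ?_
  obtain ⟨i, hi⟩ := exists_nat_ge (2 * b)
  obtain ⟨n0, hn0, h⟩ := ex_big i
  filter_upwards [Filter.eventually_ge_atTop (2 * n0)] with n hn
  have hnpos : (0 : ℝ) < n := by exact_mod_cast (by omega : 0 < n)
  rw [le_div_iff₀ hnpos]
  have h1 : n ≤ 2 * (n / n0 * n0) := by
    have := Nat.div_add_mod n n0
    have := Nat.mod_lt n hn0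
    have : n / n0 * n0 = n0 * (n / n0) := Nat.mul_comm _ _
    omega
  have h2 : n * (i + 1) ≤ 2 * ex n P₀ := by
    calc n * (i + 1) ≤ 2 * (n / n0 * n0) * (i + 1) := Nat.mul_le_mul_right _ h1
      _ = 2 * (n / n0 * n0 * (i + 1)) := by ring
      _ ≤ 2 * ex n P₀ := Nat.mul_le_mul_left _ (h n)
  have h3 : (n : ℝ) * (i + 1) ≤ 2 * ex n P₀ := by exact_mod_cast h2
  nlinarith

theorem lower {a b : ℕ} (A : Matrix (Fin a) (Fin b) Bool) : ones A ≤ LSM A P₀ * LSM A P₀ := by
  classical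
  set K := LSM A P₀
  have hrow : ∀ x : Fin a, (univ.filter fun y => A x y = true).card ≤ K := by
    intro x
    let B : Matrix (Fin a) (Fin b) Bool := fun i j => decide (i = x ∧ A i j = true)
    have hB : ∀ i j, B i j = true ↔ i = x ∧ A i j = true := by intro i j; simp [B]
    refine le_trans ?_ (le_LSM A B (fun i j h => ((hB i j).1 h).2) ?_)
    · unfold ones
      refine card_le_card_of_injOn (fun y => (x, y)) ?_ ?_
      · intro y hy
        simp only [coe_filter, mem_univ, true_and, Set.mem_ofPred_eq] at hy ⊢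
        exact (hB _ _).2 ⟨rfl, hy⟩
      · intro y _ y' _ h
        simpa using h
    · rw [contains_iff]
      rintro ⟨u, u', y1, y2, y3, y4, hx, -, -, -, a1, a2, -, -⟩
      rw [((hB _ _).1 a1).1, ((hB _ _).1 a2).1] at hx
      exact lt_irrefl _ hx
  let S : Finset (Fin a) := univ.filter fun x => ∃ y, A x y = true
  have hS : S.card ≤ K := by
    let B : Matrix (Fin a) (Fin b) Bool := fun i j =>
      decide (A i j = true ∧ ∀ j', A i j' = true → j ≤ j')
    have hB : ∀ i j, B i j = true ↔ A i j = true ∧ ∀ j', A i j' = true → j ≤ j' := by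
      intro i j; simp [B]
    refine le_trans ?_ (le_LSM A B (fun i j h => ((hB i j).1 h).1) ?_)
    · unfold ones
      refine le_trans (card_le_card ?_) (card_image_le (f := Prod.fst))
      intro x hx
      obtain ⟨y, hy⟩ := (mem_filter.1 hx).2
      obtain ⟨y0, hy0, hmin⟩ := exists_min_image (univ.filter fun y => A x y = true) id
        ⟨y, by simpa using hy⟩
      refine mem_image.2 ⟨(x, y0), ?_, rfl⟩
      simp only [mem_filter, mem_univ, true_and] at hy0 hmin ⊢
      exact (hB _ _).2 ⟨hy0, hmin⟩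
    · rw [contains_iff]
      rintro ⟨u, u', y1, y2, y3, y4, hx, h1, h2, -, a1, -, a3, -⟩
      exact absurd (((hB _ _).1 a3).2 y1 ((hB _ _).1 a1).1) (not_le.2 (h1.trans h2))
  have h : ones A ≤ ∑ x ∈ S, (univ.filter fun y => A x y = true).card := by
    rw [← card_sigma]
    unfold ones
    refine card_le_card_of_injOn (fun p => ⟨p.1, p.2⟩) ?_ ?_
    · rintro ⟨x, y⟩ hp
      simp only [coe_filter, mem_univ, true_and, Set.mem_ofPred_eq] at hp
      simp only [coe_sigma, Set.mem_sigma_iff, mem_coe, mem_filter, mem_univ, true_and, S]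
      exact ⟨⟨y, hp⟩, hp⟩
    · rintro ⟨x, y⟩ _ ⟨x', y'⟩ _ h
      simp only [Sigma.mk.injEq, heq_eq_eq] at h
      rw [h.1, h.2]
  calc ones A ≤ ∑ x ∈ S, (univ.filter fun y => A x y = true).card := h
    _ ≤ S.card * K := by
        simpa using sum_le_card_nsmul S _ K (fun x _ => hrow x)
    _ ≤ K * K := Nat.mul_le_mul_right _ hS

def cyc (k m : ℕ) : Matrix (Fin k) (Fin m) Bool := fun r c => decide (c.1 % k = r.1)

theorem ones_cyc (k m : ℕ) (hk : 0 < k) : ones (cyc k m) = m := by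
  unfold ones
  have : (univ.filter fun p : Fin k × Fin m => cyc k m p.1 p.2 = true) =
      univ.image (fun c : Fin m => ((⟨c.1 % k, Nat.mod_lt _ hk⟩ : Fin k), c)) := by
    ext ⟨r, c⟩
    simp only [cyc, decide_eq_true_eq, mem_filter, mem_univ, true_and, mem_image, Prod.mk.injEq,
      Fin.ext_iff]
    constructor
    · intro h; exact ⟨c, h, rfl⟩
    · rintro ⟨c', h, h'⟩; rw [← h']; exact h
  rw [this, card_image_of_injective _ (fun a b h => (Prod.mk.inj h).2)]
  simp

theorem LSM_cyc (k m : ℕ) (hm : m ≤ k * k) : LSM (cyc k m) P₀ ≤ 3 * k := by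
  classical
  refine LSM_le _ _ fun B hB hav => ?_
  have hB' : ∀ r c, B r c = true → c.1 % k = r.1 := fun r c h => by
    simpa [cyc] using hB r c h
  let F : Finset (Fin k × Fin m) :=
    univ.filter fun p => B p.1 p.2 = true ∧ ∀ c, B p.1 c = true → p.2 ≤ c
  let G : Finset (Fin k × Fin m) :=
    univ.filter fun p => B p.1 p.2 = true ∧ ∀ c, B p.1 c = true → c ≤ p.2
  let M : Finset (Fin k × Fin m) :=
    univ.filter fun p => B p.1 p.2 = true ∧ (∃ c, B p.1 c = true ∧ c < p.2) ∧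
      (∃ c, B p.1 c = true ∧ p.2 < c)
  have hF : F.card ≤ k := by
    have : F.card ≤ (univ : Finset (Fin k)).card := by
      refine card_le_card_of_injOn Prod.fst (fun _ _ => by simp) ?_
      rintro ⟨r, c⟩ hp ⟨r', c'⟩ hp' h
      simp only [F, coe_filter, mem_univ, true_and, Set.mem_ofPred_eq] at hp hp'
      have h0 : r = r' := h
      subst h0
      rw [le_antisymm (hp.2 _ hp'.1) (hp'.2 _ hp.1)]
    simpa using this
  have hG : G.card ≤ k := by
    have : G.card ≤ (univ : Finset (Fin k)).card := by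
      refine card_le_card_of_injOn Prod.fst (fun _ _ => by simp) ?_
      rintro ⟨r, c⟩ hp ⟨r', c'⟩ hp' h
      simp only [G, coe_filter, mem_univ, true_and, Set.mem_ofPred_eq] at hp hp'
      have h0 : r = r' := h
      subst h0
      rw [le_antisymm (hp'.2 _ hp.1) (hp.2 _ hp'.1)]
    simpa using this
  have key : ∀ r r' : Fin k, ∀ c c' : Fin m, (r, c) ∈ M → (r', c') ∈ M → c.1 / k = c'.1 / k →
      r < r' → False := by
    intro r r' c c' hp hp' h hlt
    simp only [M, mem_filter, mem_univ, true_and] at hp hp'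
    obtain ⟨b1, -, c4, b4, l4⟩ := hp
    obtain ⟨b2, ⟨c0, b0, l0⟩, -⟩ := hp'
    have e1 := hB' _ _ b1
    have e2 := hB' _ _ b2
    have e4 := hB' _ _ b4
    have e0 := hB' _ _ b0
    have d1 := Nat.div_add_mod c.1 k
    have d2 := Nat.div_add_mod c'.1 k
    have d4 := Nat.div_add_mod c4.1 k
    have d0 := Nat.div_add_mod c0.1 k
    have hlt' : r.1 < r'.1 := hlt
    have l4' : c.1 < c4.1 := l4
    have l0' : c0.1 < c'.1 := l0
    have hr' := r'.2
    have t0 : c0.1 / k < c'.1 / k := by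
      by_contra hh
      have : k * (c'.1 / k) ≤ k * (c0.1 / k) := Nat.mul_le_mul_left _ (not_lt.1 hh)
      omega
    have t4 : c.1 / k < c4.1 / k := by
      by_contra hh
      have : k * (c4.1 / k) ≤ k * (c.1 / k) := Nat.mul_le_mul_left _ (not_lt.1 hh)
      omega
    have s0 : k * (c0.1 / k + 1) ≤ k * (c'.1 / k) := Nat.mul_le_mul_left _ t0
    have s4 : k * (c.1 / k + 1) ≤ k * (c4.1 / k) := Nat.mul_le_mul_left _ t4
    rw [Nat.mul_add] at s0 s4
    rw [h] at d1 s4
    apply hav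
    rw [contains_iff]
    refine ⟨r, r', c0, c, c', c4, hlt, ?_, ?_, ?_, b0, b1, b2, b4⟩
    · show c0.1 < c.1
      omega
    · show c.1 < c'.1
      omega
    · show c'.1 < c4.1
      omega
  have hM : M.card ≤ k := by
    have : M.card ≤ (range k).card := by
      refine card_le_card_of_injOn (fun p => p.2.1 / k) ?_ ?_
      · rintro ⟨r, c⟩ _
        simp only [coe_range, Set.mem_Iio]
        exact Nat.div_lt_of_lt_mul (c.2.trans_le hm)
      · rintro ⟨r, c⟩ hp ⟨r', c'⟩ hp' h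
        have h' : c.1 / k = c'.1 / k := h
        rcases lt_trichotomy r r' with hh | hh | hh
        · exact (key r r' c c' hp hp' h' hh).elim
        · subst hh
          simp only [M, coe_filter, mem_univ, true_and, Set.mem_ofPred_eq] at hp hp'
          have e1 := hB' _ _ hp.1
          have e2 := hB' _ _ hp'.1
          have d1 := Nat.div_add_mod c.1 k
          have d2 := Nat.div_add_mod c'.1 k
          rw [h'] at d1
          have : c = c' := Fin.ext (by omega)
          rw [this]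
        · exact (key r' r c' c hp' hp h'.symm hh).elim
    simpa using this
  have hsub : (univ.filter fun p : Fin k × Fin m => B p.1 p.2 = true) ⊆ F ∪ G ∪ M := by
    rintro ⟨r, c⟩ hp
    simp only [mem_filter, mem_univ, true_and] at hp
    simp only [F, G, M, mem_union, mem_filter, mem_univ, true_and]
    by_cases h1 : ∀ c', B r c' = true → c ≤ c'
    · exact Or.inl (Or.inl ⟨hp, h1⟩)
    by_cases h2 : ∀ c', B r c' = true → c' ≤ c
    · exact Or.inl (Or.inr ⟨hp, h2⟩)
    push Not at h1 h2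
    exact Or.inr ⟨hp, h1, h2⟩
  have h1 := card_le_card hsub
  have h2 := card_union_le (F ∪ G) M
  have h3 := card_union_le F G
  unfold ones
  omega

theorem sm_bounds (m : ℕ) : √(m : ℝ) ≤ sm m P₀ ∧ (sm m P₀ : ℝ) ≤ 3 * √(m : ℝ) + 3 := by
  have hk : 0 < Nat.sqrt m + 1 := Nat.succ_pos _
  have hmem : LSM (cyc (Nat.sqrt m + 1) m) P₀ ∈
      {k | ∃ (a b : ℕ) (A : Matrix (Fin a) (Fin b) Bool), ones A = m ∧ LSM A P₀ = k} :=
    ⟨_, _, _, ones_cyc _ m hk, rfl⟩
  constructor
  · obtain ⟨a, b, A, hA, hs⟩ := Nat.sInf_mem ⟨_, hmem⟩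
    have h := lower A
    rw [hA, hs] at h
    change m ≤ sm m P₀ * sm m P₀ at h
    have h' : (m : ℝ) ≤ (sm m P₀ : ℝ) ^ 2 := by rw [sq]; exact_mod_cast h
    exact Real.sqrt_le_iff.2 ⟨by positivity, h'⟩
  · have h1 : sm m P₀ ≤ 3 * (Nat.sqrt m + 1) :=
      (Nat.sInf_le hmem).trans (LSM_cyc _ m (Nat.lt_succ_sqrt m).le)
    have h2 : (Nat.sqrt m : ℝ) ≤ √(m : ℝ) := Real.nat_sqrt_le_real_sqrt
    have h3 : (sm m P₀ : ℝ) ≤ 3 * (Nat.sqrt m + 1) := by exact_mod_cast h1
    linarith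

end Pool.Agent.Lib.MP_f2a48e_co
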